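import Pool.Agent.Lib.MP_305fdd_al.F8.D1.G.Mat

/-!
# MP_305fdd_al, block G for `d = 1`: the homomorphism given by the coset table
-/

set_option autoImplicit false

namespace Pool.Agent.F8.D1.PG

open Pool.Agent.MP_305fdd_al Pool.Agent.Lib.MP_305fdd_al Pool.Agent.F2X Pool.Agent.F8
  Pool.Agent.F8.HN Pool.Agent.F8.AB Pool.Agent.F8.D1
open Pool.Agent.F8.G (SL_ext SL_mul SL_det SL_neg mU00 mU01 mU10 mU11 mB00 mB01 mB10 mB11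
  one00 one01 one10 one11 U00 U01 U10 U11 B00 B01 B10 B11 mU_add mU_zero BB)
open scoped QuadraticAlgebra

/-! ### Explicit matrices -/

/-- `t` -/
def Mt : SL2 Z1 := mx (zz 1 0 0 0 0 0 0 0) (zz 0 0 (-1) 1 0 0 0 0) (zz 0 0 0 0 0 0 0 0)
  (zz 1 0 0 0 0 0 0 0) (by decide +kernel)
/-- `u` -/
def Mu : SL2 Z1 := mx (zz 0 0 0 0 0 0 0 (-1)) (zz 0 0 0 0 0 (-1) 0 0) (zz 0 0 0 0 0 1 0 0)
  (zz 0 0 0 0 0 0 1 0) (by decide +kernel)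
/-- `v` -/
def Mv : SL2 Z1 := mx (zz 0 0 0 0 (-1) 0 0 0) (zz 0 0 0 0 0 0 0 1) (zz 0 0 0 0 0 0 0 (-1))
  (zz 0 0 0 0 (-1) 0 0 0) (by decide +kernel)
/-- `k` -/
def Mk : SL2 Z1 := mx (zz 0 0 0 0 0 0 0 0) (zz 0 1 0 0 0 0 0 0) (zz 0 1 0 0 0 0 0 0)
  (zz 0 0 0 0 0 0 0 0) (by decide +kernel)

theorem ee2 : D1.ee ℤ ^ 2 = zz 0 1 0 0 0 0 0 0 := by rw [pow_two, ← zmul_eq]; rfl
theorem ee3 : D1.ee ℤ ^ 3 = zz 0 0 0 0 0 1 0 0 := by rw [pow_succ, ee2, ← zmul_eq]; rfl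

theorem mt_M : mt1 (D1.ee ℤ) (ff ℤ) = Mt := by
  unfold mt1 Mt
  apply mx_congr
  · decide +kernel
  · rw [ee2]; decide +kernel
  · decide +kernel
  · decide +kernel

theorem mu_M : mu1 (D1.ee ℤ) (ff ℤ) (ee_eq ℤ) (ff_eq ℤ) = Mu := by
  unfold mu1 Mu
  apply mx_congr
  · rw [ee3]; decide +kernel
  · rw [ee3]; decide +kernel
  · rw [ee3]
  · decide +kernel

theorem mv_M : mv1 (D1.ee ℤ) (ff ℤ) (ee_eq ℤ) (ff_eq ℤ) = Mv := by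
  unfold mv1 Mv
  apply mx_congr
  · decide +kernel
  · rw [ee3]; decide +kernel
  · rw [ee3]; decide +kernel
  · decide +kernel

theorem mk_M : mk1 (D1.ee ℤ) (ee_eq ℤ) = Mk := by
  unfold mk1 Mk
  apply mx_congr
  · decide +kernel
  · rw [ee2]
  · rw [ee2]
  · decide +kernel

theorem Th_nu : Th1 nu = pj Z1 Mu := by
  show Th1s _ _ _ _ (iK kp1 (iA al1 ga)) = _
  rw [Th1s_iK, rho1_iA, rF1_ga, mu_M]
theorem Th_nv : Th1 nv = pj Z1 Mv := by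
  show Th1s _ _ _ _ (iK kp1 (iA al1 gb)) = _
  rw [Th1s_iK, rho1_iA, rF1_gb, mv_M]
theorem Th_na : Th1 na = pj Z1 Mt := by
  show Th1s _ _ _ _ (iK kp1 (tA al1)) = _
  rw [Th1s_iK, rho1_tA, mt_M]
theorem Th_nk : Th1 nk = pj Z1 Mk := by
  show Th1s _ _ _ _ (AB.kk kp1) = _
  rw [Th1s_kk, mk_M]

/-- the matrix of a letter -/
def lm : Lt → SL2 Z1
  | .u => Mu | .u' => Mu⁻¹ | .v => Mv | .v' => Mv⁻¹ | .t => Mt | .t' => Mt⁻¹ | .k => Mk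

/-- the matrix of a word -/
def Mw : List Lt → SL2 Z1
  | [] => 1
  | x :: l => lm x * Mw l

theorem Th_lm (x : Lt) : Th1 (lval nu nv na nk x) = pj Z1 (lm x) := by
  cases x with
  | u => exact Th_nu
  | v => exact Th_nv
  | t => exact Th_na
  | k => exact Th_nk
  | u' => show Th1 nu⁻¹ = pj Z1 Mu⁻¹; rw [map_inv, Th_nu, map_inv]
  | v' => show Th1 nv⁻¹ = pj Z1 Mv⁻¹; rw [map_inv, Th_nv, map_inv]
  | t' => show Th1 na⁻¹ = pj Z1 Mt⁻¹; rw [map_inv, Th_na, map_inv]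

theorem Th_Nw (l : List Lt) : Th1 (Nw nu nv na nk l) = pj Z1 (Mw l) := by
  induction l with
  | nil => show Th1 1 = pj Z1 1; rw [map_one, map_one]
  | cons x l ih =>
    show Th1 (lval nu nv na nk x * Nw nu nv na nk l) = pj Z1 (lm x * Mw l)
    rw [map_mul, map_mul, ih, Th_lm]

/-- the entries of the matrix of a letter -/
def lq : Lt → Z1 × Z1 × Z1 × Z1
  | .u => (zz 0 0 0 0 0 0 0 (-1), zz 0 0 0 0 0 (-1) 0 0, zz 0 0 0 0 0 1 0 0, zz 0 0 0 0 0 0 1 0)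
  | .u' => (zz 0 0 0 0 0 0 1 0, zz 0 0 0 0 0 1 0 0, zz 0 0 0 0 0 (-1) 0 0, zz 0 0 0 0 0 0 0 (-1))
  | .v => (zz 0 0 0 0 (-1) 0 0 0, zz 0 0 0 0 0 0 0 1, zz 0 0 0 0 0 0 0 (-1), zz 0 0 0 0 (-1) 0 0 0)
  | .v' => (zz 0 0 0 0 (-1) 0 0 0, zz 0 0 0 0 0 0 0 (-1), zz 0 0 0 0 0 0 0 1,
      zz 0 0 0 0 (-1) 0 0 0)
  | .t => (zz 1 0 0 0 0 0 0 0, zz 0 0 (-1) 1 0 0 0 0, zz 0 0 0 0 0 0 0 0, zz 1 0 0 0 0 0 0 0)
  | .t' => (zz 1 0 0 0 0 0 0 0, zz 0 0 1 (-1) 0 0 0 0, zz 0 0 0 0 0 0 0 0, zz 1 0 0 0 0 0 0 0)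
  | .k => (zz 0 0 0 0 0 0 0 0, zz 0 1 0 0 0 0 0 0, zz 0 1 0 0 0 0 0 0, zz 0 0 0 0 0 0 0 0)

theorem q4_mx (a b c d : Z1) (h : a * d - b * c = 1) : q4 (mx a b c d h) = (a, b, c, d) := rfl

theorem lq_eq (x : Lt) : q4 (lm x) = lq x := by
  cases x with
  | u => rfl
  | v => rfl
  | t => rfl
  | k => rfl
  | u' =>
    show q4 Mu⁻¹ = _
    unfold Mu
    rw [mx_inv, q4_mx]
    decide +kernel
  | v' =>
    show q4 Mv⁻¹ = _
    unfold Mv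
    rw [mx_inv, q4_mx]
    decide +kernel
  | t' =>
    show q4 Mt⁻¹ = _
    unfold Mt
    rw [mx_inv, q4_mx]
    decide +kernel

/-- the entries of the matrix of a word -/
def qw : List Lt → Z1 × Z1 × Z1 × Z1
  | [] => (zz 1 0 0 0 0 0 0 0, zz 0 0 0 0 0 0 0 0, zz 0 0 0 0 0 0 0 0, zz 1 0 0 0 0 0 0 0)
  | x :: l => qmul (lq x) (qw l)

theorem qw_eq (l : List Lt) : q4 (Mw l) = qw l := by
  induction l with
  | nil =>
    show q4 (1 : SL2 Z1) = _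
    rw [mx_one, q4_mx]
    decide +kernel
  | cons x l ih =>
    show q4 (lm x * Mw l) = qmul (lq x) (qw l)
    rw [q4_mul, ih, lq_eq]

/-! ### The representatives of the cosets -/

/-- the matrices of the generators -/
def gm : Gn → SL2 O1
  | .A => mU 1 | .A' => (mU 1)⁻¹ | .U => mU ⟨0, 1⟩ | .U' => (mU ⟨0, 1⟩)⁻¹ | .B => mB O1 | .L => mL

/-- the matrix of a word -/
def gw : List Gn → SL2 O1
  | [] => 1
  | x :: l => gm x * gw l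

/-- the entries of the matrices of the generators -/
def go : Gn → O1 × O1 × O1 × O1
  | .A => (⟨1, 0⟩, ⟨1, 0⟩, ⟨0, 0⟩, ⟨1, 0⟩)
  | .A' => (⟨1, 0⟩, ⟨-1, 0⟩, ⟨0, 0⟩, ⟨1, 0⟩)
  | .U => (⟨1, 0⟩, ⟨0, 1⟩, ⟨0, 0⟩, ⟨1, 0⟩)
  | .U' => (⟨1, 0⟩, ⟨0, -1⟩, ⟨0, 0⟩, ⟨1, 0⟩)
  | .B => (⟨0, 0⟩, ⟨-1, 0⟩, ⟨1, 0⟩, ⟨0, 0⟩)
  | .L => (⟨0, 1⟩, ⟨0, 0⟩, ⟨0, 0⟩, ⟨0, -1⟩)

theorem go_eq (x : Gn) : o4 (gm x) = go x := by
  have hinv : ∀ x : O1, (mU x)⁻¹ = mU (-x) := by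
    intro x
    apply inv_eq_of_mul_eq_one_left
    rw [← mU_add, neg_add_cancel, mU_zero]
  cases x with
  | A => show o4 (mU 1) = _; decide +kernel
  | A' => show o4 (mU 1)⁻¹ = _; rw [hinv]; decide +kernel
  | U => show o4 (mU ⟨0, 1⟩) = _; decide +kernel
  | U' => show o4 (mU ⟨0, 1⟩)⁻¹ = _; rw [hinv]; decide +kernel
  | B => show o4 (mB O1) = _; decide +kernel
  | L => show o4 mL = _; decide +kernel

/-- the entries of the matrix of a word -/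
def ow : List Gn → O1 × O1 × O1 × O1
  | [] => (⟨1, 0⟩, ⟨0, 0⟩, ⟨0, 0⟩, ⟨1, 0⟩)
  | x :: l => omul (go x) (ow l)

theorem ow_eq (l : List Gn) : o4 (gw l) = ow l := by
  induction l with
  | nil =>
    show o4 (1 : SL2 O1) = _
    rw [mx_one]
    decide +kernel
  | cons x l ih =>
    show o4 (gm x * gw l) = omul (go x) (ow l)
    rw [o4_mul, ih, go_eq]

/-- the words of the representatives -/
def rw0 : List (List Gn) :=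
  [[], [.B], [.A], [.L], [.A, .B], [.U, .B], [.L, .B], [.B, .A], [.L, .A], [.B, .A, .B],
   [.U, .A, .B], [.L, .A, .B], [.B, .U, .B], [.L, .U, .B], [.U, .B, .A], [.L, .B, .A],
   [.U, .B, .A, .B], [.L, .B, .A, .B], [.B, .U, .A, .B], [.L, .U, .A, .B], [.A, .B, .U, .B],
   [.B, .U, .B, .A, .B], [.A, .B, .U, .A, .B], [.L, .B, .U, .A, .B]]

/-- the words of the representatives -/
def rwd (i : Fin 24) : List Gn := rw0.getD i.val []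

/-- the representatives of the cosets -/
def rr (i : Fin 24) : SL2 O1 := gw (rwd i)

theorem rr_zero : rr 0 = 1 := rfl

/-- type `(0, 0)` -/
def T00 (m : Z1 × Z1 × Z1 × Z1) : Prop :=
  m.1 = zz m.1.a.a.re m.1.a.a.im 0 0 0 0 0 0 ∧
  m.2.1 = zz 0 0 m.2.1.a.b.re m.2.1.a.b.im 0 0 0 0 ∧
  m.2.2.1 = zz 0 0 m.2.2.1.a.b.re m.2.2.1.a.b.im 0 0 0 0 ∧
  m.2.2.2 = zz m.2.2.2.a.a.re m.2.2.2.a.a.im 0 0 0 0 0 0

instance (m : Z1 × Z1 × Z1 × Z1) : Decidable (T00 m) := by unfold T00; infer_instance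

/-- the matrix over `O1` -/
def toC (m : Z1 × Z1 × Z1 × Z1) : O1 × O1 × O1 × O1 :=
  (m.1.a.a, m.2.1.a.b, gmul ⟨1, 1⟩ m.2.2.1.a.b, m.2.2.2.a.a)

theorem c1_re (z : O1) : c1 ℤ z = zz z.re z.im 0 0 0 0 0 0 := rfl

theorem ff_c1 (z : O1) : ff ℤ * c1 ℤ z = zz 0 0 z.re z.im 0 0 0 0 := by
  rw [← zmul_eq]
  apply S1.ext <;> apply K1.ext <;> apply O_ext <;>
    simp [zmul, kmul, kadd, gmul, gadd, ff, c1_apply]

theorem ff_ff_c1 (z : O1) : ff ℤ * (ff ℤ * c1 ℤ z) = c1 ℤ (⟨1, 1⟩ * z) := by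
  have h := ff_sq ℤ
  have e : ff ℤ * (ff ℤ * c1 ℤ z) = ff ℤ ^ 2 * c1 ℤ z := by ring
  rw [e, h, ← map_mul]
  rfl

theorem TP_of (M : SL2 Z1) (h : T00 (q4 M)) : ∃ C : SL2 O1, TP C M ∧ o4 C = toC (q4 M) := by
  obtain ⟨h1, h2, h3, h4⟩ := h
  have e1 : M.val 0 0 = c1 ℤ (M.val 0 0).a.a := h1
  have e2 : M.val 0 1 = ff ℤ * c1 ℤ (M.val 0 1).a.b := by rw [ff_c1]; exact h2
  have e3 : M.val 1 0 = ff ℤ * c1 ℤ (M.val 1 0).a.b := by rw [ff_c1]; exact h3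
  have e4 : M.val 1 1 = c1 ℤ (M.val 1 1).a.a := h4
  have hd := SL_det M
  rw [e1, e2, e3, e4] at hd
  have hinj : ∀ x y : O1, c1 ℤ x = c1 ℤ y → x = y := fun x y hxy =>
    congrArg (fun z : Z1 => z.a.a) hxy
  have hd' : (M.val 0 0).a.a * (M.val 1 1).a.a - (M.val 0 1).a.b * (⟨1, 1⟩ * (M.val 1 0).a.b) =
      1 := by
    apply hinj
    have e5 := ff_ff_c1 (M.val 1 0).a.b
    rw [map_sub, map_mul, map_mul, map_one, ← e5]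
    linear_combination hd
  refine ⟨mx (M.val 0 0).a.a (M.val 0 1).a.b (⟨1, 1⟩ * (M.val 1 0).a.b) (M.val 1 1).a.a hd',
    ⟨?_, ?_, ?_, ?_⟩, ?_⟩
  · rw [mx_00]; exact e1
  · rw [mx_01]; exact e2
  · rw [mx_10, ← ff_ff_c1, ← e3]
  · rw [mx_11]; exact e4
  · show ((M.val 0 0).a.a, (M.val 0 1).a.b, ⟨1, 1⟩ * (M.val 1 0).a.b, (M.val 1 1).a.a) =
      ((M.val 0 0).a.a, (M.val 0 1).a.b, gmul ⟨1, 1⟩ (M.val 1 0).a.b, (M.val 1 1).a.a)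
    rw [gmul_eq]

/-- the verification of an entry of the table -/
def chk (x : Gn) (i : Fin 24) : Prop :=
  T00 (qw (cg x i)) ∧ (omul (go x) (ow (rwd i)) = omul (ow (rwd (sg x i))) (toC (qw (cg x i))) ∨
    omul (go x) (ow (rwd i)) = oneg (omul (ow (rwd (sg x i))) (toC (qw (cg x i)))))

instance (x : Gn) (i : Fin 24) : Decidable (chk x i) := by unfold chk; infer_instance

theorem chkA : ∀ i, chk .A i := by decide +kernel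
theorem chkU : ∀ i, chk .U i := by decide +kernel
theorem chkB : ∀ i, chk .B i := by decide +kernel
theorem chkL : ∀ i, chk .L i := by decide +kernel

theorem entry {x : Gn} {i : Fin 24} (h : chk x i) : pj L (ph (gm x)) * pj L (ph (rr i)) =
    pj L (ph (rr (sg x i))) * mp (Th1 (Nw nu nv na nk (cg x i))) := by
  obtain ⟨h1, h2⟩ := h
  rw [← qw_eq] at h1 h2
  obtain ⟨C, hC, hC2⟩ := TP_of _ h1
  have e1 : mp (Th1 (Nw nu nv na nk (cg x i))) = pj L (ph C) := by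
    rw [Th_Nw, mp_pj, ← (TP_iff C _).1 hC]
  rw [← hC2, ← go_eq, ← ow_eq, ← ow_eq, ← o4_mul, ← o4_mul, ← o4_neg] at h2
  rw [e1, ← map_mul, ← map_mul, ← map_mul, ← map_mul]
  rcases h2 with h2 | h2
  · rw [show gm x * rr i = rr (sg x i) * C from o4_inj h2]
  · rw [show gm x * rr i = -(rr (sg x i) * C) from o4_inj h2, ph_neg, pj_neg]

end Pool.Agent.F8.D1.PG
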