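import Pool.Agent.Lib.MP_305fdd_al.F8.D1.G.End

/-!
# MP_305fdd_al, block G for `d = 1`: the isomorphism `NQ1 / ±1 → N2A kp1`, surjectivity
-/

set_option autoImplicit false

namespace Pool.Agent.F8.D1.PG

open Pool.Agent.MP_305fdd_al Pool.Agent.Lib.MP_305fdd_al Pool.Agent.F2X Pool.Agent.F8
  Pool.Agent.F8.HN Pool.Agent.F8.AB Pool.Agent.F8.D1
open Pool.Agent.F8.G (SL_ext SL_mul SL_det SL_neg mU00 mU01 mU10 mU11 mB00 mB01 mB10 mB11
  one00 one01 one10 one11 U00 U01 U10 U11 B00 B01 B10 B11 mU_add mU_zero BB)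
open scoped QuadraticAlgebra

/-! ### The condition modulo `f⁶` -/

theorem ff6 : ff ℤ ^ 6 = zz (-2) 2 0 0 0 0 0 0 := by
  have h := ff_sq ℤ
  have e : ff ℤ ^ 6 = ff ℤ ^ 2 * ff ℤ ^ 2 * ff ℤ ^ 2 := by ring
  rw [e, h, ← zmul_eq, ← zmul_eq]
  decide +kernel

theorem ff6c : ff ℤ ^ 6 = c1 ℤ ⟨-2, 2⟩ := ff6

/-- a criterion for `NQ` -/
theorem NQ_of {c : Z1} (g : SL2 Z1) (α β γ : Z1)
    (h1 : g.val 0 0 * g.val 0 0 - g.val 0 1 * g.val 0 1 - 1 = c * α)
    (h2 : 2 * (g.val 0 0 * g.val 1 0 - g.val 0 1 * g.val 1 1) = c * β)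
    (h3 : g.val 1 0 * g.val 1 0 - g.val 1 1 * g.val 1 1 + 1 = c * γ) : g ∈ NQ c := by
  intro x y
  refine ⟨x ^ 2 * α + x * y * β + y ^ 2 * γ, ?_⟩
  linear_combination x ^ 2 * h1 + x * y * h2 + y ^ 2 * h3

theorem NQ_neg {c : Z1} {g : SL2 Z1} (h : g ∈ NQ c) : -g ∈ NQ c := by
  intro x y
  have := h x y
  rw [SL_neg, SL_neg, SL_neg, SL_neg]
  convert this using 1
  ring

theorem Mu_NQ : Mu ∈ NQ (ff ℤ ^ 6) := by
  rw [ff6]
  exact NQ_of Mu 0 (zz 0 0 1 0 0 0 0 0) (-1) (by decide +kernel) (by decide +kernel)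
    (by decide +kernel)
theorem Mv_NQ : Mv ∈ NQ (ff ℤ ^ 6) := by
  rw [ff6]
  exact NQ_of Mv 1 (zz 0 0 1 1 0 0 0 0) (-1) (by decide +kernel) (by decide +kernel)
    (by decide +kernel)
theorem Mt_NQ : Mt ∈ NQ (ff ℤ ^ 6) := by
  rw [ff6]
  exact NQ_of Mt 1 (zz 0 0 (-1) 0 0 0 0 0) 0 (by decide +kernel) (by decide +kernel)
    (by decide +kernel)
theorem Mk_NQ : Mk ∈ NQ (ff ℤ ^ 6) := by
  rw [ff6]
  exact NQ_of Mk 0 0 0 (by decide +kernel) (by decide +kernel) (by decide +kernel)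

/-- the image of `Th1` -/
theorem Th_NQ (w : N2A kp1) : ∃ M ∈ NQ (ff ℤ ^ 6), Th1 w = pj Z1 M := by
  let S : Subgroup (N2A kp1) :=
    { carrier := {w | ∃ M ∈ NQ (ff ℤ ^ 6), Th1 w = pj Z1 M}
      one_mem' := ⟨1, Subgroup.one_mem _, by rw [map_one, map_one]⟩
      mul_mem' := by
        rintro x y ⟨M, hM, hx⟩ ⟨N, hN, hy⟩
        exact ⟨M * N, Subgroup.mul_mem _ hM hN, by rw [map_mul, map_mul, hx, hy]⟩
      inv_mem' := by
        rintro x ⟨M, hM, hx⟩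
        exact ⟨M⁻¹, Subgroup.inv_mem _ hM, by rw [map_inv, map_inv, hx]⟩ }
  exact gen_top S ⟨Mu, Mu_NQ, Th_nu⟩ ⟨Mv, Mv_NQ, Th_nv⟩ ⟨Mt, Mt_NQ, Th_na⟩ ⟨Mk, Mk_NQ, Th_nk⟩ w

/-- divisibility by `(1 + i)³` -/
def D3 (z : O1) : Prop := (4 : ℤ) ∣ z.re - z.im ∧ (4 : ℤ) ∣ z.re + z.im

instance (z : O1) : Decidable (D3 z) := by unfold D3; infer_instance

theorem D3_of {z : O1} (h : ff ℤ ^ 6 ∣ c1 ℤ z) : D3 z := by
  obtain ⟨w, hw⟩ := h
  rw [ff6c, ← zmul_eq] at hw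
  have h1 := congrArg (fun z : Z1 => z.a.a.re) hw
  have h2 := congrArg (fun z : Z1 => z.a.a.im) hw
  simp only [c1_apply, ks_a, kk1_a, zmul, kmul, kadd, gadd, gmul, kk1_b, ks_b, K1.zero_a,
    K1.zero_b] at h1 h2
  simp only [QuadraticAlgebra.re_zero, QuadraticAlgebra.im_zero, zero_mul, mul_zero, add_zero,
    sub_zero] at h1 h2
  constructor
  · exact ⟨-w.a.a.re, by linarith⟩
  · exact ⟨-w.a.a.im, by linarith⟩

/-- the condition for a matrix over `O1` (entries `m`) -/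
def cond (m : O1 × O1 × O1 × O1) : Prop :=
  (2 : ℤ) ∣ m.2.2.1.re - m.2.2.1.im ∧
  D3 (gadd (gadd (gmul m.1 m.1) (gneg (gmul ⟨1, 1⟩ (gmul m.2.1 m.2.1)))) ⟨-1, 0⟩) ∧
  D3 (gadd (gadd (gmul ⟨1, 1⟩ (gmul ⟨(m.2.2.1.re + m.2.2.1.im) / 2, (m.2.2.1.im - m.2.2.1.re) / 2⟩
    ⟨(m.2.2.1.re + m.2.2.1.im) / 2, (m.2.2.1.im - m.2.2.1.re) / 2⟩))
    (gneg (gmul m.2.2.2 m.2.2.2))) ⟨1, 0⟩)

instance (m : O1 × O1 × O1 × O1) : Decidable (cond m) := by unfold cond; infer_instance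

theorem gneg_eq (x : O1) : gneg x = -x := rfl

theorem cond_of {Y : SL2 O1} {M : SL2 Z1} (h : TP Y M) (hM : M ∈ NQ (ff ℤ ^ 6)) :
    cond (o4 Y) := by
  -- the third entry
  have h1 := h.c
  rw [← zmul_eq] at h1
  have k1 := congrArg (fun z : Z1 => z.a.b) h1
  have k2 := congrArg (fun z : Z1 => z.b.b) h1
  have k3 := congrArg (fun z : Z1 => z.b.a) h1
  have k4 := congrArg (fun z : Z1 => z.a.a) h1
  simp only [c1_apply, ks_a, kk1_a, zmul, kmul, kadd, kk1_b, ks_b, ff, K1.zero_a,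
    K1.zero_b, gadd_eq, gmul_eq] at k1 k2 k3 k4
  have z0 : (⟨0, 0⟩ : O1) = 0 := rfl
  simp only [z0, zero_mul, mul_zero, zero_add, add_zero, one_mul] at k1 k2 k3 k4
  have hnd : ∀ x : O1, (⟨1, 1⟩ : O1) * x = 0 → x = 0 := by
    intro x hx
    have e1 := congrArg QuadraticAlgebra.re hx
    have e2 := congrArg QuadraticAlgebra.im hx
    rw [O_re_mul, QuadraticAlgebra.re_zero] at e1
    rw [O_im_mul, QuadraticAlgebra.im_zero] at e2
    simp only [one_mul] at e1 e2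
    apply O_ext
    · rw [QuadraticAlgebra.re_zero]; linarith
    · rw [QuadraticAlgebra.im_zero]; linarith
  have k5 : (M.val 1 0).b.b = 0 := hnd _ k3
  obtain ⟨q, hq⟩ : ∃ q, q = (M.val 1 0).a.b := ⟨_, rfl⟩
  have e10 : M.val 1 0 = ff ℤ * c1 ℤ q := by
    rw [ff_c1]
    apply S1.ext <;> apply K1.ext
    · exact k1
    · exact hq.symm
    · exact k2
    · exact k5
  have hY : Y.val 1 0 = ⟨1, 1⟩ * q := by rw [hq]; exact k4.symm
  have hre : (Y.val 1 0).re = q.re - q.im := by rw [hY, O_re_mul]; simp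
  have him : (Y.val 1 0).im = q.re + q.im := by rw [hY, O_im_mul]; simp; ring
  have q1 : ((Y.val 1 0).re + (Y.val 1 0).im) / 2 = q.re := by rw [hre, him]; omega
  have q2 : ((Y.val 1 0).im - (Y.val 1 0).re) / 2 = q.im := by rw [hre, him]; omega
  have hqq : (⟨((Y.val 1 0).re + (Y.val 1 0).im) / 2, ((Y.val 1 0).im - (Y.val 1 0).re) / 2⟩ :
      O1) = q := O_ext q1 q2
  have hpi : ff ℤ ^ 2 = c1 ℤ ⟨1, 1⟩ := ff_sq ℤ
  refine ⟨?_, ?_, ?_⟩
  · show (2 : ℤ) ∣ (Y.val 1 0).re - (Y.val 1 0).im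
    rw [hre, him]
    exact ⟨-q.im, by ring⟩
  · show D3 (gadd (gadd (gmul (Y.val 0 0) (Y.val 0 0)) (gneg (gmul ⟨1, 1⟩ (gmul (Y.val 0 1)
      (Y.val 0 1))))) ⟨-1, 0⟩)
    simp only [gadd_eq, gmul_eq, gneg_eq]
    apply D3_of
    have := hM 1 0
    convert this using 1
    have e1 : (⟨-1, 0⟩ : O1) = -1 := by decide
    rw [h.a, h.b, e1]
    simp only [map_add, map_mul, map_neg, map_one]
    linear_combination (c1 ℤ (Y.val 0 1)) ^ 2 * hpi
  · show D3 (gadd (gadd (gmul ⟨1, 1⟩ (gmul ⟨((Y.val 1 0).re + (Y.val 1 0).im) / 2,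
      ((Y.val 1 0).im - (Y.val 1 0).re) / 2⟩ ⟨((Y.val 1 0).re + (Y.val 1 0).im) / 2,
      ((Y.val 1 0).im - (Y.val 1 0).re) / 2⟩)) (gneg (gmul (Y.val 1 1) (Y.val 1 1)))) ⟨1, 0⟩)
    rw [hqq]
    simp only [gadd_eq, gmul_eq, gneg_eq]
    apply D3_of
    have := hM 0 1
    convert this using 1
    have e1 : (⟨1, 0⟩ : O1) = 1 := by decide
    rw [e10, h.d, e1]
    simp only [map_add, map_mul, map_neg, map_one]
    linear_combination (-(c1 ℤ q) ^ 2) * hpi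

theorem cond_rr : ∀ i : Fin 24, cond (ow (rwd i)) → i = 0 := by decide +kernel

/-! ### Surjectivity -/

/-- the elements of type zero -/
theorem ex_zero (x : SL2 Z1) (hx : tw (sf ℤ) x = x) (hx' : SLm (se ℤ) x = x)
    (hq : x ∈ NQ (ff ℤ ^ 6)) : ∃ w, Th1 w = pj Z1 x := by
  obtain ⟨f, hf⟩ := exT
  have e00 : (sf ℤ) (x.val 0 0) = x.val 0 0 := congrArg (fun g : SL2 Z1 => g.val 0 0) hx
  have e01 : -(sf ℤ) (x.val 0 1) = x.val 0 1 := congrArg (fun g : SL2 Z1 => g.val 0 1) hx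
  have e10 : -(sf ℤ) (x.val 1 0) = x.val 1 0 := congrArg (fun g : SL2 Z1 => g.val 1 0) hx
  have e11 : (sf ℤ) (x.val 1 1) = x.val 1 1 := congrArg (fun g : SL2 Z1 => g.val 1 1) hx
  have g00 : (se ℤ) (x.val 0 0) = x.val 0 0 := congrArg (fun g : SL2 Z1 => g.val 0 0) hx'
  have g01 : (se ℤ) (x.val 0 1) = x.val 0 1 := congrArg (fun g : SL2 Z1 => g.val 0 1) hx'
  have g10 : (se ℤ) (x.val 1 0) = x.val 1 0 := congrArg (fun g : SL2 Z1 => g.val 1 0) hx'
  have g11 : (se ℤ) (x.val 1 1) = x.val 1 1 := congrArg (fun g : SL2 Z1 => g.val 1 1) hx'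
  have h2 : ∀ y : O1, -y = y → y = 0 := by
    intro y hy
    have h1 := congrArg QuadraticAlgebra.re hy
    have h2 := congrArg QuadraticAlgebra.im hy
    rw [QuadraticAlgebra.re_neg] at h1
    rw [QuadraticAlgebra.im_neg] at h2
    apply O_ext
    · rw [QuadraticAlgebra.re_zero]; omega
    · rw [QuadraticAlgebra.im_zero]; omega
  have hb : ∀ y : Z1, (se ℤ) y = y → y.b = 0 := by
    intro y hy
    have h1 := congrArg (fun z : Z1 => z.b.a) hy
    have h3 := congrArg (fun z : Z1 => z.b.b) hy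
    exact K1.ext (h2 _ h1) (h2 _ h3)
  have hab : ∀ y : Z1, (sf ℤ) y = y → y.a.b = 0 := by
    intro y hy
    have h1 := congrArg (fun z : Z1 => z.a.b) hy
    exact h2 _ h1
  have haa : ∀ y : Z1, -(sf ℤ) y = y → y.a.a = 0 := by
    intro y hy
    have h1 := congrArg (fun z : Z1 => z.a.a) hy
    exact h2 _ h1
  have hT : T00 (q4 x) := by
    refine ⟨?_, ?_, ?_, ?_⟩
    · show x.val 0 0 = _
      apply S1.ext
      · apply K1.ext
        · rfl
        · exact hab _ e00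
      · exact hb _ g00
    · show x.val 0 1 = _
      apply S1.ext
      · apply K1.ext
        · exact haa _ e01
        · rfl
      · exact hb _ g01
    · show x.val 1 0 = _
      apply S1.ext
      · apply K1.ext
        · exact haa _ e10
        · rfl
      · exact hb _ g10
    · show x.val 1 1 = _
      apply S1.ext
      · apply K1.ext
        · rfl
        · exact hab _ e11
      · exact hb _ g11
  obtain ⟨X, hX, -⟩ := TP_of x hT
  obtain ⟨i, w, hw⟩ : ∃ (i : Fin 24) (w : N2A kp1), f X (0, 1) = (i, w) := ⟨_, _, rfl⟩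
  obtain ⟨M, hMq, hM⟩ := Th_NQ w
  -- the representative
  have h3 : ∃ M' ∈ NQ (ff ℤ ^ 6), TP ((rr i)⁻¹ * X) M' := by
    rcases K0_ph hf hw hM with h | h
    · exact ⟨M, hMq, h⟩
    · exact ⟨-M, NQ_neg hMq, h⟩
  obtain ⟨M', hM'q, hM'⟩ := h3
  have h4 : TP (rr i) (x * M'⁻¹) := by
    rw [TP_iff]
    have h5 := (TP_iff _ _).1 hM'
    have h6 := (TP_iff _ _).1 hX
    rw [map_mul, map_inv, ← h5, ← h6, ← map_inv, ← map_mul]
    congr 1
    group
  have h5 : i = 0 := by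
    apply cond_rr
    rw [← ow_eq]
    exact cond_of h4 (Subgroup.mul_mem _ hq (Subgroup.inv_mem _ hM'q))
  rw [h5] at hw
  refine ⟨w, ?_⟩
  apply mp_inj
  have h6 := hf.v X
  rw [hw] at h6
  have h7 : V (0, w) = mp (Th1 w) := by
    show pj L (ph 1) * mp (Th1 w) = _
    rw [map_one, map_one, one_mul]
  rw [← h7, ← h6, (TP_iff X x).1 hX, mp_pj]

theorem neg_inv' (g : SL2 Z1) : (-g)⁻¹ = -g⁻¹ := by
  apply inv_eq_of_mul_eq_one_left
  rw [neg_mul_neg, inv_mul_cancel]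

theorem tw_Mk : tw (sf ℤ) Mk = -Mk := by
  unfold Mk
  rw [tw_mx, mx_neg]
  apply mx_congr <;> decide +kernel
theorem tw_Mv : tw (sf ℤ) Mv = Mv := by
  unfold Mv
  rw [tw_mx]
  apply mx_congr <;> decide +kernel
theorem se_Mk : SLm (se ℤ) Mk = Mk := by
  unfold Mk
  rw [mx_map]
  apply mx_congr <;> decide +kernel
theorem se_Mv : SLm (se ℤ) Mv = -Mv := by
  unfold Mv
  rw [mx_map, mx_neg]
  apply mx_congr <;> decide +kernel

/-- the elements of `e`-type zero -/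
theorem ex_one (x : SL2 Z1) (hx : tw (sf ℤ) x = x ∨ tw (sf ℤ) x = -x) (hx' : SLm (se ℤ) x = x)
    (hq : x ∈ NQ (ff ℤ ^ 6)) : ∃ w, Th1 w = pj Z1 x := by
  rcases hx with h | h
  · exact ex_zero x h hx' hq
  · obtain ⟨w, hw⟩ := ex_zero (x * Mk⁻¹) (by rw [map_mul, map_inv, h, tw_Mk, neg_inv', neg_mul_neg])
      (by rw [map_mul, map_inv, hx', se_Mk])
      (Subgroup.mul_mem _ hq (Subgroup.inv_mem _ Mk_NQ))
    refine ⟨w * nk, ?_⟩
    rw [map_mul, hw, Th_nk, ← map_mul, inv_mul_cancel_right]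

/-- every element of `NQ1` is in the image of `Th1` -/
theorem ex_all (x : NQ1) : ∃ w, Th1 w = pj Z1 x.val := by
  obtain ⟨x, ⟨hN, hS⟩, hQ⟩ := x
  rcases hS with h | h
  · exact ex_one x hN h hQ
  · obtain ⟨w, hw⟩ := ex_one (x * Mv⁻¹) (by
        rcases hN with h1 | h1
        · left
          show tw (sf ℤ) (x * Mv⁻¹) = _
          rw [map_mul, map_inv, tw_Mv]
          show tw (sf ℤ) x * _ = _
          rw [h1]
        · right
          show tw (sf ℤ) (x * Mv⁻¹) = _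
          rw [map_mul, map_inv, tw_Mv]
          show tw (sf ℤ) x * _ = _
          rw [h1, neg_mul])
      (by rw [map_mul, map_inv, h, se_Mv, neg_inv', neg_mul_neg])
      (Subgroup.mul_mem _ hQ (Subgroup.inv_mem _ Mv_NQ))
    refine ⟨w * nv, ?_⟩
    rw [map_mul, hw, Th_nv, ← map_mul, inv_mul_cancel_right]

end Pool.Agent.F8.D1.PG

namespace Pool.Agent.F8.D1

open PG Pool.Agent.F8.AB Pool.Agent.F8 in
/-- BLOCK G for `d = 1` -/
theorem p_G1 : S_G1 := by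
  refine ⟨⟨⟨fun x => Classical.choose (ex_all x), ?_⟩, ?_⟩, ?_⟩
  · apply Th_injective
    rw [Classical.choose_spec (ex_all 1), map_one]
    exact map_one _
  · intro x y
    apply Th_injective
    show Th1 (Classical.choose (ex_all (x * y))) =
      Th1 (Classical.choose (ex_all x) * Classical.choose (ex_all y))
    rw [Classical.choose_spec (ex_all (x * y)), map_mul, Classical.choose_spec (ex_all x),
      Classical.choose_spec (ex_all y), ← map_mul]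
    rfl
  · intro x
    exact Classical.choose_spec (ex_all x)

end Pool.Agent.F8.D1
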