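import Pool.Agent.Lib.MP_305fdd_al.F8.D1.G.Table
import Mathlib.RingTheory.Localization.Away.Basic

/-!
# MP_305fdd_al, block G for `d = 1`: the matrices of the coset table

`L = Z1[1/f]`, `ph : SL₂(O1) → SL₂(L)`, `[[a, b], [c, d]] ↦ [[a, f b], [c / f, d]]`.
-/

set_option autoImplicit false

namespace Pool.Agent.F8.D1.PG

open Pool.Agent.MP_305fdd_al Pool.Agent.Lib.MP_305fdd_al Pool.Agent.F2X Pool.Agent.F8
  Pool.Agent.F8.HN Pool.Agent.F8.AB Pool.Agent.F8.D1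
open Pool.Agent.F8.G (SL_ext SL_mul SL_det SL_neg mU00 mU01 mU10 mU11 mB00 mB01 mB10 mB11
  one00 one01 one10 one11 U00 U01 U10 U11 B00 B01 B10 B11 mU_add mU_zero BB)
open scoped QuadraticAlgebra

/-! ### The generators of `N2A kp1` -/

/-- `u` -/
abbrev nu : N2A kp1 := iK kp1 (iA al1 ga)
/-- `v` -/
abbrev nv : N2A kp1 := iK kp1 (iA al1 gb)
/-- `t` -/
abbrev na : N2A kp1 := iK kp1 (tA al1)
/-- `k` -/
abbrev nk : N2A kp1 := AB.kk kp1

theorem relN : RelN (N2A kp1) nu nv na nk := by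
  refine ⟨?_, ?_, AB.kk_sq kp1, ?_, ?_, ?_⟩
  · have h := congrArg (iK kp1) (tA_conj al1 ga)
    rw [al1_ga] at h
    simp only [map_mul, map_inv] at h
    rw [mul_inv_eq_iff_eq_mul] at h
    show iK kp1 (tA al1) * iK kp1 (iA al1 ga) = _
    rw [h]
    simp only [mul_assoc]
  · have h := congrArg (iK kp1) (tA_conj al1 gb)
    rw [al1_gb] at h
    simp only [map_mul, map_inv] at h
    rw [mul_inv_eq_iff_eq_mul] at h
    show iK kp1 (tA al1) * iK kp1 (iA al1 gb) = _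
    rw [h]
    simp only [mul_assoc]
  · have h := AB.kk_conj kp1 (iA al1 ga)
    rw [AB.kap_apply, kap0_iA, iot_ga, map_inv, map_inv, mul_inv_eq_iff_eq_mul] at h
    exact h
  · have h := AB.kk_conj kp1 (iA al1 gb)
    rw [AB.kap_apply, kap0_iA, iot_gb, map_inv, map_inv, mul_inv_eq_iff_eq_mul] at h
    exact h
  · have h := AB.kk_conj kp1 (tA al1)
    rw [AB.kap_apply, kap0_tA, map_mul, map_mul, map_mul, mul_inv_eq_iff_eq_mul] at h
    show AB.kk kp1 * iK kp1 (tA al1) = _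
    rw [h]
    simp only [mul_assoc]

/-! ### The ring `L` -/

theorem two_nd (z : Z1) (h : z * 2 = 0) : z = 0 := by
  have e : z * 2 = z + z := by ring
  rw [e] at h
  have h1 := congrArg (fun w : Z1 => w.a.a.re) h
  have h2 := congrArg (fun w : Z1 => w.a.a.im) h
  have h3 := congrArg (fun w : Z1 => w.a.b.re) h
  have h4 := congrArg (fun w : Z1 => w.a.b.im) h
  have h5 := congrArg (fun w : Z1 => w.b.a.re) h
  have h6 := congrArg (fun w : Z1 => w.b.a.im) h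
  have h7 := congrArg (fun w : Z1 => w.b.b.re) h
  have h8 := congrArg (fun w : Z1 => w.b.b.im) h
  simp only [S1.add_a, S1.add_b, K1.add_a, K1.add_b, S1.zero_a, S1.zero_b, K1.zero_a, K1.zero_b,
    QuadraticAlgebra.re_add, QuadraticAlgebra.im_add, QuadraticAlgebra.re_zero,
    QuadraticAlgebra.im_zero] at h1 h2 h3 h4 h5 h6 h7 h8
  apply S1.ext <;> apply K1.ext <;> apply O_ext
  · show z.a.a.re = 0
    omega
  · show z.a.a.im = 0
    omega
  · show z.a.b.re = 0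
    omega
  · show z.a.b.im = 0
    omega
  · show z.b.a.re = 0
    omega
  · show z.b.a.im = 0
    omega
  · show z.b.b.re = 0
    omega
  · show z.b.b.im = 0
    omega

theorem ff_nd : ff ℤ ∈ nonZeroDivisors Z1 := by
  rw [mem_nonZeroDivisors_iff_right]
  intro z hz
  apply two_nd
  have h1 := ff_eq ℤ
  have h2 := ee_eq ℤ
  calc z * 2 = z * ff ℤ * ff ℤ * (1 - D1.ee ℤ ^ 2) := by
        linear_combination (-z * (1 - D1.ee ℤ ^ 2)) * h1 + z * h2
    _ = 0 := by rw [hz, zero_mul, zero_mul]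

/-- `Z1[1/f]` -/
abbrev L : Type := Localization.Away (ff ℤ)

/-- the embedding `Z1 → L` -/
abbrev il : Z1 →+* L := algebraMap Z1 L

theorem il_inj : Function.Injective il :=
  IsLocalization.injective L (M := Submonoid.powers (ff ℤ)) (Submonoid.powers_le.2 ff_nd)

/-- the inverse of `f` -/
noncomputable def fi : L := IsLocalization.Away.invSelf (ff ℤ)

theorem fi_eq : il (ff ℤ) * fi = 1 := IsLocalization.Away.mul_invSelf (ff ℤ)

/-- `[[a, b], [c, d]] ↦ [[a, f b], [c / f, d]]` -/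
noncomputable def ph : SL2 O1 →* SL2 L where
  toFun g := mx (il (c1 ℤ (g.val 0 0))) (il (ff ℤ) * il (c1 ℤ (g.val 0 1)))
    (fi * il (c1 ℤ (g.val 1 0))) (il (c1 ℤ (g.val 1 1))) (by
      have h := congrArg (fun x => il (c1 ℤ x)) (SL_det g)
      simp only [map_sub, map_mul, map_one] at h
      linear_combination h - il (c1 ℤ (g.val 0 1)) * il (c1 ℤ (g.val 1 0)) * fi_eq)
  map_one' := by
    rw [mx_one (R := L)]
    apply mx_congr
    · rw [one00, map_one, map_one]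
    · rw [one01, map_zero, map_zero, mul_zero]
    · rw [one10, map_zero, map_zero, mul_zero]
    · rw [one11, map_one, map_one]
  map_mul' g h := by
    rw [mx_mul]
    apply mx_congr
    · simp only [SL_mul, map_add, map_mul]
      linear_combination (-(il (c1 ℤ (g.val 0 1)) * il (c1 ℤ (h.val 1 0)))) * fi_eq
    · simp only [SL_mul, map_add, map_mul]; ring
    · simp only [SL_mul, map_add, map_mul]; ring
    · simp only [SL_mul, map_add, map_mul]
      linear_combination (-(il (c1 ℤ (g.val 1 0)) * il (c1 ℤ (h.val 0 1)))) * fi_eq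

theorem ph_00 (g : SL2 O1) : (ph g).val 0 0 = il (c1 ℤ (g.val 0 0)) := rfl
theorem ph_01 (g : SL2 O1) : (ph g).val 0 1 = il (ff ℤ) * il (c1 ℤ (g.val 0 1)) := rfl
theorem ph_10 (g : SL2 O1) : (ph g).val 1 0 = fi * il (c1 ℤ (g.val 1 0)) := rfl
theorem ph_11 (g : SL2 O1) : (ph g).val 1 1 = il (c1 ℤ (g.val 1 1)) := rfl

theorem ph_neg (g : SL2 O1) : ph (-g) = -ph g := by
  apply SL_ext
  · rw [SL_neg, ph_00, ph_00, SL_neg, map_neg, map_neg]
  · rw [SL_neg, ph_01, ph_01, SL_neg, map_neg, map_neg, mul_neg]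
  · rw [SL_neg, ph_10, ph_10, SL_neg, map_neg, map_neg, mul_neg]
  · rw [SL_neg, ph_11, ph_11, SL_neg, map_neg, map_neg]

/-- `M = [[a, f b], [c / f, d]]` for `X = [[a, b], [c, d]]` -/
structure TP (X : SL2 O1) (M : SL2 Z1) : Prop where
  a : M.val 0 0 = c1 ℤ (X.val 0 0)
  b : M.val 0 1 = ff ℤ * c1 ℤ (X.val 0 1)
  c : ff ℤ * M.val 1 0 = c1 ℤ (X.val 1 0)
  d : M.val 1 1 = c1 ℤ (X.val 1 1)

theorem SLm_val {R S : Type} [CommRing R] [CommRing S] (f : R →+* S) (g : SL2 R) (i k : Fin 2) :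
    (SLm f g).val i k = f (g.val i k) := rfl

theorem TP_iff (X : SL2 O1) (M : SL2 Z1) : TP X M ↔ ph X = SLm il M := by
  constructor
  · rintro ⟨h1, h2, h3, h4⟩
    apply SL_ext
    · rw [ph_00, SLm_val, h1]
    · rw [ph_01, SLm_val, h2, map_mul]
    · rw [ph_10, SLm_val, ← h3, map_mul]
      linear_combination il (M.val 1 0) * fi_eq
    · rw [ph_11, SLm_val, h4]
  · intro h
    have h1 := congrArg (fun g : SL2 L => g.val 0 0) h
    have h2 := congrArg (fun g : SL2 L => g.val 0 1) h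
    have h3 := congrArg (fun g : SL2 L => g.val 1 0) h
    have h4 := congrArg (fun g : SL2 L => g.val 1 1) h
    simp only [ph_00, ph_01, ph_10, ph_11, SLm_val] at h1 h2 h3 h4
    refine ⟨il_inj h1.symm, il_inj ?_, il_inj ?_, il_inj h4.symm⟩
    · rw [← h2, map_mul]
    · rw [map_mul, ← h3]
      linear_combination il (c1 ℤ (X.val 1 0)) * fi_eq

/-! ### The quotients by `±1` -/

/-- the homomorphism `SL₂(Z1) / ±1 → SL₂(L) / ±1` -/
noncomputable def mp : SL2 Z1 ⧸ pm Z1 →* SL2 L ⧸ pm L :=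
  QuotientGroup.lift (pm Z1) ((pj L).comp (SLm il)) (by
    rintro g (rfl | rfl)
    · exact map_one _
    · have h1 : SLm il (-1 : SL2 Z1) = -1 := by
        apply SL_ext
        · rw [SLm_val, SL_neg, SL_neg, one00, one00, map_neg, map_one]
        · rw [SLm_val, SL_neg, SL_neg, one01, one01, map_neg, map_zero]
        · rw [SLm_val, SL_neg, SL_neg, one10, one10, map_neg, map_zero]
        · rw [SLm_val, SL_neg, SL_neg, one11, one11, map_neg, map_one]
      show pj L (SLm il (-1 : SL2 Z1)) = 1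
      rw [h1, pj_neg, map_one])

theorem mp_pj (g : SL2 Z1) : mp (pj Z1 g) = pj L (SLm il g) := rfl

theorem SLm_neg {R S : Type} [CommRing R] [CommRing S] (f : R →+* S) (g : SL2 R) :
    SLm f (-g) = -SLm f g := by
  apply SL_ext <;> rw [SLm_val, SL_neg, SL_neg, SLm_val, map_neg]

theorem SLm_inj : Function.Injective (SLm il) := by
  intro g h hgh
  apply SL_ext
  · exact il_inj (congrArg (fun g : SL2 L => g.val 0 0) hgh)
  · exact il_inj (congrArg (fun g : SL2 L => g.val 0 1) hgh)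
  · exact il_inj (congrArg (fun g : SL2 L => g.val 1 0) hgh)
  · exact il_inj (congrArg (fun g : SL2 L => g.val 1 1) hgh)

theorem mp_inj : Function.Injective mp := by
  intro x y hxy
  obtain ⟨g, rfl⟩ := QuotientGroup.mk'_surjective (pm Z1) x
  obtain ⟨h, rfl⟩ := QuotientGroup.mk'_surjective (pm Z1) y
  rw [mp_pj, mp_pj] at hxy
  rcases pj_eq hxy with e | e
  · rw [SLm_inj e]
  · rw [← SLm_neg] at e
    rw [SLm_inj e, pj_neg]

/-! ### Computation -/

/-- multiplication in `O1` -/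
def gmul (x y : O1) : O1 := ⟨x.re * y.re - x.im * y.im, x.re * y.im + x.im * y.re⟩
/-- addition in `O1` -/
def gadd (x y : O1) : O1 := ⟨x.re + y.re, x.im + y.im⟩
/-- multiplication in `K1 ℤ` -/
def kmul (x y : K1 ℤ) : K1 ℤ :=
  kk1 (gadd (gmul x.a y.a) (gmul ⟨1, 1⟩ (gmul x.b y.b))) (gadd (gmul x.a y.b) (gmul x.b y.a))
/-- addition in `K1 ℤ` -/
def kadd (x y : K1 ℤ) : K1 ℤ := kk1 (gadd x.a y.a) (gadd x.b y.b)
/-- multiplication in `Z1` -/
def zmul (x y : Z1) : Z1 :=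
  ks (kadd (kmul x.a y.a) (kmul (kk1 ⟨0, 1⟩ ⟨0, 0⟩) (kmul x.b y.b)))
    (kadd (kmul x.a y.b) (kmul x.b y.a))
/-- addition in `Z1` -/
def zadd (x y : Z1) : Z1 := ks (kadd x.a y.a) (kadd x.b y.b)

theorem gmul_eq (x y : O1) : gmul x y = x * y := by
  apply O_ext
  · rw [O_re_mul]; rfl
  · rw [O_im_mul]; rfl
theorem gadd_eq (x y : O1) : gadd x y = x + y := by
  apply O_ext
  · rw [QuadraticAlgebra.re_add]; rfl
  · rw [QuadraticAlgebra.im_add]; rfl
theorem kmul_eq (x y : K1 ℤ) : kmul x y = x * y := by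
  apply K1.ext
  · rw [K1.mul_a]
    show gadd (gmul x.a y.a) (gmul ⟨1, 1⟩ (gmul x.b y.b)) = _
    rw [gadd_eq, gmul_eq, gmul_eq, gmul_eq, mul_assoc]
    rfl
  · rw [K1.mul_b]
    show gadd (gmul x.a y.b) (gmul x.b y.a) = _
    rw [gadd_eq, gmul_eq, gmul_eq]
theorem kadd_eq (x y : K1 ℤ) : kadd x y = x + y := by
  apply K1.ext
  · rw [K1.add_a]; exact gadd_eq _ _
  · rw [K1.add_b]; exact gadd_eq _ _
theorem zmul_eq (x y : Z1) : zmul x y = x * y := by
  apply S1.ext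
  · rw [S1.mul_a]
    show kadd (kmul x.a y.a) (kmul (kk1 ⟨0, 1⟩ ⟨0, 0⟩) (kmul x.b y.b)) = _
    rw [kadd_eq, kmul_eq, kmul_eq, kmul_eq, mul_assoc]
    rfl
  · rw [S1.mul_b]
    show kadd (kmul x.a y.b) (kmul x.b y.a) = _
    rw [kadd_eq, kmul_eq, kmul_eq]
theorem zadd_eq (x y : Z1) : zadd x y = x + y := by
  apply S1.ext
  · rw [S1.add_a]; exact kadd_eq _ _
  · rw [S1.add_b]; exact kadd_eq _ _

/-- the entries of a matrix over `Z1` -/
def q4 (g : SL2 Z1) : Z1 × Z1 × Z1 × Z1 := (g.val 0 0, g.val 0 1, g.val 1 0, g.val 1 1)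
/-- the entries of a matrix over `O1` -/
def o4 (g : SL2 O1) : O1 × O1 × O1 × O1 := (g.val 0 0, g.val 0 1, g.val 1 0, g.val 1 1)
/-- matrix multiplication -/
def qmul (x y : Z1 × Z1 × Z1 × Z1) : Z1 × Z1 × Z1 × Z1 :=
  (zadd (zmul x.1 y.1) (zmul x.2.1 y.2.2.1), zadd (zmul x.1 y.2.1) (zmul x.2.1 y.2.2.2),
   zadd (zmul x.2.2.1 y.1) (zmul x.2.2.2 y.2.2.1), zadd (zmul x.2.2.1 y.2.1) (zmul x.2.2.2 y.2.2.2))
/-- matrix multiplication -/
def omul (x y : O1 × O1 × O1 × O1) : O1 × O1 × O1 × O1 :=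
  (gadd (gmul x.1 y.1) (gmul x.2.1 y.2.2.1), gadd (gmul x.1 y.2.1) (gmul x.2.1 y.2.2.2),
   gadd (gmul x.2.2.1 y.1) (gmul x.2.2.2 y.2.2.1), gadd (gmul x.2.2.1 y.2.1) (gmul x.2.2.2 y.2.2.2))
/-- negation -/
def gneg (x : O1) : O1 := ⟨-x.re, -x.im⟩
/-- negation -/
def oneg (x : O1 × O1 × O1 × O1) : O1 × O1 × O1 × O1 :=
  (gneg x.1, gneg x.2.1, gneg x.2.2.1, gneg x.2.2.2)

theorem q4_mul (g h : SL2 Z1) : q4 (g * h) = qmul (q4 g) (q4 h) := by
  unfold q4 qmul
  simp only [SL_mul, zadd_eq, zmul_eq]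
theorem o4_mul (g h : SL2 O1) : o4 (g * h) = omul (o4 g) (o4 h) := by
  unfold o4 omul
  simp only [SL_mul, gadd_eq, gmul_eq]
theorem o4_neg (g : SL2 O1) : o4 (-g) = oneg (o4 g) := by
  unfold o4 oneg
  simp only [SL_neg]
  rfl
theorem o4_inj {g h : SL2 O1} (hgh : o4 g = o4 h) : g = h := by
  unfold o4 at hgh
  simp only [Prod.mk.injEq] at hgh
  exact SL_ext hgh.1 hgh.2.1 hgh.2.2.1 hgh.2.2.2

/-- an explicit element `(a + b i + (c + d i) f) + (...) e` -/
abbrev zz (a b c d a' b' c' d' : ℤ) : Z1 := ks (kk1 ⟨a, b⟩ ⟨c, d⟩) (kk1 ⟨a', b'⟩ ⟨c', d'⟩)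

end Pool.Agent.F8.D1.PG
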