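import Pool.Agent.Lib.MP_305fdd_al.F8.D1.G.Gen

/-!
# MP_305fdd_al, block G for `d = 1`: the isomorphism `NQ1 / ±1 → N2A kp1`
-/

set_option autoImplicit false

namespace Pool.Agent.F8.D1.PG

open Pool.Agent.MP_305fdd_al Pool.Agent.Lib.MP_305fdd_al Pool.Agent.F2X Pool.Agent.F8
  Pool.Agent.F8.HN Pool.Agent.F8.AB Pool.Agent.F8.D1
open Pool.Agent.F8.G (SL_ext SL_mul SL_det SL_neg mU00 mU01 mU10 mU11 mB00 mB01 mB10 mB11
  one00 one01 one10 one11 U00 U01 U10 U11 B00 B01 B10 B11 mU_add mU_zero BB)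
open scoped QuadraticAlgebra

/-- the value of a pair -/
noncomputable def V (p : Fin 24 × N2A kp1) : SL2 L ⧸ pm L := pj L (ph (rr p.1)) * mp (Th1 p.2)

/-- right multiplication -/
def rt (z : N2A kp1) (p : Fin 24 × N2A kp1) : Fin 24 × N2A kp1 := (p.1, p.2 * z)

/-- the subgroup of the elements for which the table is compatible with `V` and `rt` -/
def TT (f : SL2 O1 →* Equiv.Perm (Fin 24 × N2A kp1)) : Subgroup (SL2 O1) where
  carrier := {g | (∀ p, pj L (ph g) * V p = V (f g p)) ∧ ∀ z p, f g (rt z p) = rt z (f g p)}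
  one_mem' := ⟨fun p => by rw [map_one, map_one, map_one, one_mul]; rfl,
    fun z p => by rw [map_one]; rfl⟩
  mul_mem' := by
    rintro g h ⟨g1, g2⟩ ⟨h1, h2⟩
    refine ⟨fun p => ?_, fun z p => ?_⟩
    · rw [map_mul, map_mul, mul_assoc, h1, g1, map_mul]; rfl
    · rw [map_mul, Equiv.Perm.mul_apply, Equiv.Perm.mul_apply, h2, g2]
  inv_mem' := by
    rintro g ⟨g1, g2⟩
    have hi : ∀ p, f g (f g⁻¹ p) = p := by
      intro p
      rw [← Equiv.Perm.mul_apply, ← map_mul, mul_inv_cancel, map_one]; rfl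
    refine ⟨fun p => ?_, fun z p => ?_⟩
    · have := g1 (f g⁻¹ p)
      rw [hi] at this
      rw [← this, map_inv, map_inv, inv_mul_cancel_left]
    · apply (f g).injective
      rw [hi, g2, hi]

/-- the homomorphism given by the table -/
structure IsT (f : SL2 O1 →* Equiv.Perm (Fin 24 × N2A kp1)) : Prop where
  fA : f (mU 1) = pg nu nv na nk .A
  fU : f (mU ⟨0, 1⟩) = pg nu nv na nk .U
  fB : f (mB O1) = pg nu nv na nk .B
  fL : f mL = pg nu nv na nk .L

theorem exT : ∃ f, IsT f := by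
  obtain ⟨f, fU, fB, fL⟩ := pres (table relN)
  refine ⟨f, ?_, ?_, fB, fL⟩
  · rw [fU]
    unfold ee
    rw [QuadraticAlgebra.re_one, QuadraticAlgebra.im_one, zpow_one, zpow_zero, mul_one]
  · rw [fU]
    show pg nu nv na nk .A ^ (0 : ℤ) * pg nu nv na nk .U ^ (1 : ℤ) = _
    rw [zpow_zero, one_mul, zpow_one]

variable {f : SL2 O1 →* Equiv.Perm (Fin 24 × N2A kp1)}

theorem IsT.gm (hf : IsT f) (x : Gn) : f (gm x) = pg nu nv na nk x := by
  cases x with
  | A => exact hf.fA
  | A' => show f (mU 1)⁻¹ = _; rw [map_inv, hf.fA]; rfl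
  | U => exact hf.fU
  | U' => show f (mU ⟨0, 1⟩)⁻¹ = _; rw [map_inv, hf.fU]; rfl
  | B => exact hf.fB
  | L => exact hf.fL

theorem IsT.gw (hf : IsT f) (w : List Gn) : f (gw w) = pw nu nv na nk w := by
  induction w with
  | nil => exact map_one f
  | cons x w ih =>
    show f (PG.gm x * PG.gw w) = pg nu nv na nk x * pw nu nv na nk w
    rw [map_mul, ih, hf.gm]

theorem gen_TT (hf : IsT f) (x : Gn) (hx : ∀ i, chk x i) : PG.gm x ∈ TT f := by
  refine ⟨?_, ?_⟩
  · rintro ⟨i, y⟩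
    rw [hf.gm, pg_apply relN]
    show pj L (ph (PG.gm x)) * (pj L (ph (rr i)) * mp (Th1 y)) =
      pj L (ph (rr (sg x i))) * mp (Th1 (Nw nu nv na nk (cg x i) * y))
    rw [← mul_assoc, entry (hx i), map_mul, map_mul, mul_assoc]
  · rintro z ⟨i, y⟩
    rw [hf.gm]
    show pg nu nv na nk x (i, y * z) = rt z (pg nu nv na nk x (i, y))
    rw [pg_apply relN, pg_apply relN]
    show _ = (sg x i, Nw nu nv na nk (cg x i) * y * z)
    rw [mul_assoc]

theorem IsT.tt (hf : IsT f) (g : SL2 O1) : g ∈ TT f := SL_sub (TT f)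
  (gen_TT hf .A chkA) (gen_TT hf .U chkU) (gen_TT hf .B chkB) (gen_TT hf .L chkL) g

theorem IsT.v (hf : IsT f) (g : SL2 O1) : pj L (ph g) = V (f g (0, 1)) := by
  rw [← (hf.tt g).1 (0, 1)]
  show _ = pj L (ph g) * (pj L (ph 1) * mp (Th1 1))
  rw [map_one, map_one, map_one, map_one, mul_one, mul_one]

/-- the image of the type `(0, 0)` subgroup -/
def K0 (hf : IsT f) : Subgroup (N2A kp1) where
  carrier := {w | ∃ g, f g (0, 1) = (0, w)}
  one_mem' := ⟨1, by rw [map_one]; rfl⟩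
  mul_mem' := by
    rintro w w' ⟨g, hg⟩ ⟨g', hg'⟩
    refine ⟨g * g', ?_⟩
    rw [map_mul, Equiv.Perm.mul_apply, hg']
    have := (hf.tt g).2 w' (0, 1)
    unfold rt at this
    simp only [one_mul] at this
    rw [this, hg]
  inv_mem' := by
    rintro w ⟨g, hg⟩
    refine ⟨g⁻¹, ?_⟩
    have := (hf.tt g⁻¹).2 w⁻¹ (f g (0, 1))
    rw [← Equiv.Perm.mul_apply, ← map_mul, inv_mul_cancel, map_one, hg] at this
    unfold rt at this
    simp only [mul_inv_cancel, Equiv.Perm.one_apply, one_mul] at this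
    exact this

theorem K0_mem (hf : IsT f) (w : N2A kp1) : w ∈ K0 hf ↔ ∃ g, f g (0, 1) = (0, w) := Iff.rfl

/-- the check of an element of `K0` -/
def ckK (w : List Gn) (l : List Lt) : Prop := (act w 0).1 = 0 ∧ nf (act w 0).2 = nf l

instance (w : List Gn) (l : List Lt) : Decidable (ckK w l) := by unfold ckK; infer_instance

theorem K0_of (hf : IsT f) {w : List Gn} {l : List Lt} (h : ckK w l) :
    Nw nu nv na nk l ∈ K0 hf := by
  refine ⟨PG.gw w, ?_⟩
  rw [hf.gw, pw_apply relN, h.1, mul_one, relN.nf_eq h.2]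

theorem ck1 : ckK [.A', .U] [.t] := by decide +kernel
theorem ck2 : ckK [.A', .B, .A', .A', .B, .U'] [.u, .u] := by decide +kernel
theorem ck3 : ckK [.A', .B, .A', .A', .U', .U', .B, .U] [.u, .v, .k] := by decide +kernel
theorem ck4 : ckK [.A', .B, .U, .U, .B, .A] [.u, .t, .u'] := by decide +kernel
theorem ck5 : ckK [.A', .B, .A', .A', .U', .U', .B, .U] [.u, .k, .v'] := by decide +kernel
theorem ck6 : ckK [.U', .B, .A, .A, .U, .U, .B, .A] [.v, .u, .k] := by decide +kernel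
theorem ck7 : ckK [.U', .B, .A, .A, .U, .U, .B, .U'] [.v, .v] := by decide +kernel
theorem ck8 : ckK [.B, .A, .A, .U', .U', .B, .A, .U] [.v, .t, .v'] := by decide +kernel
theorem ck9 : ckK [.U', .B, .A, .A, .U, .U, .B, .A] [.v, .k, .u'] := by decide +kernel
theorem ck10 : ckK [.B, .U, .U, .B] [.k, .u, .v'] := by decide +kernel
theorem ck11 : ckK [.A, .U] [.k, .v, .u'] := by decide +kernel
theorem ck12 : ckK [.A', .B, .A', .A', .B, .A'] [.k, .t, .k] := by decide +kernel

/-- `N2A kp1` is generated by `u, v, t, k` -/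
theorem gen_top (S : Subgroup (N2A kp1)) (hu : nu ∈ S) (hv : nv ∈ S) (ha : na ∈ S) (hk : nk ∈ S)
    (w : N2A kp1) : w ∈ S := by
  have hF : ∀ x : F, iK kp1 (iA al1 x) ∈ S := by
    intro x
    have e : S.subtype.comp (liF (⟨nu, hu⟩ : S) ⟨nv, hv⟩) = (iK kp1).comp (iA al1) := by
      apply hom_ext
      · rw [MonoidHom.comp_apply, liF_ga]; rfl
      · rw [MonoidHom.comp_apply, liF_gb]; rfl
    have e1 := DFunLike.congr_fun e x
    show ((iK kp1).comp (iA al1)) x ∈ S
    rw [← e1]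
    exact (liF (⟨nu, hu⟩ : S) ⟨nv, hv⟩ x).2
  have hG : ∀ g : G1, iK kp1 g ∈ S := by
    intro g
    obtain ⟨x, n, rfl⟩ := GA_cases al1 g
    rw [map_mul, map_zpow]
    exact S.mul_mem (hF x) (S.zpow_mem ha n)
  obtain ⟨g, rfl | rfl⟩ := K_cases kp1 w
  · exact hG g
  · exact S.mul_mem (hG g) hk

/-- the representatives of the cosets of `K0` -/
def ro : Fin 4 → N2A kp1 := ![1, nu, nv, nk]

/-- `K0` has index four -/
theorem K0_four (hf : IsT f) (w : N2A kp1) : ∃ i, w * (ro i)⁻¹ ∈ K0 hf := by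
  obtain ⟨K, hK⟩ : ∃ K, K = K0 hf := ⟨_, rfl⟩
  have c1 := K0_of hf ck1
  have c2 := K0_of hf ck2
  have c3 := K0_of hf ck3
  have c4 := K0_of hf ck4
  have c5 := K0_of hf ck5
  have c6 := K0_of hf ck6
  have c7 := K0_of hf ck7
  have c8 := K0_of hf ck8
  have c9 := K0_of hf ck9
  have c10 := K0_of hf ck10
  have c11 := K0_of hf ck11
  have c12 := K0_of hf ck12
  rw [← hK] at c1 c2 c3 c4 c5 c6 c7 c8 c9 c10 c11 c12 ⊢
  have kk := relN.k_inv
  simp only [Nw, lval, mul_one] at c1 c2 c3 c4 c5 c6 c7 c8 c9 c10 c11 c12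
  -- the set of all the elements which preserve the union of the cosets
  let S : Subgroup (N2A kp1) :=
    { carrier := {z | ∀ w, (∃ i, w * (ro i)⁻¹ ∈ K) → ((∃ i, w * z * (ro i)⁻¹ ∈ K) ∧
        (∃ i, w * z⁻¹ * (ro i)⁻¹ ∈ K))}
      one_mem' := fun w hw => by
        rw [mul_one, inv_one, mul_one]
        exact ⟨hw, hw⟩
      mul_mem' := by
        intro y z hy hz w hw
        rw [← mul_assoc, mul_inv_rev, ← mul_assoc]
        exact ⟨(hz _ (hy w hw).1).1, (hy _ (hz w hw).2).2⟩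
      inv_mem' := by
        intro z hz w hw
        rw [inv_inv]
        exact ⟨(hz w hw).2, (hz w hw).1⟩ }
  -- a permutation of the representatives
  have hS : ∀ (z : N2A kp1) (s t : Fin 4 → Fin 4), (∀ i, s (t i) = i) →
      (∀ i, ro i * z * (ro (s i))⁻¹ ∈ K) → z ∈ S := by
    intro z s t hst h w ⟨i, hi⟩
    refine ⟨⟨s i, ?_⟩, ⟨t i, ?_⟩⟩
    · have := K.mul_mem hi (h i)
      have e : w * (ro i)⁻¹ * (ro i * z * (ro (s i))⁻¹) = w * z * (ro (s i))⁻¹ := by group
      rwa [e] at this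
    · have := K.mul_mem hi (K.inv_mem (h (t i)))
      rw [hst] at this
      have e : w * (ro i)⁻¹ * (ro (t i) * z * (ro i)⁻¹)⁻¹ = w * z⁻¹ * (ro (t i))⁻¹ := by group
      rwa [e] at this
  have r0 : ro 0 = 1 := rfl
  have r1 : ro 1 = nu := rfl
  have r2 : ro 2 = nv := rfl
  have r3 : ro 3 = nk := rfl
  have hS' : ∀ z, z ∈ S := by
    intro z
    apply gen_top S
    · -- u : 1 → u, u → 1, v → k, k → v
      apply hS nu ![1, 0, 3, 2] ![1, 0, 3, 2] (by decide)
      intro i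
      fin_cases i
      · show ro 0 * nu * (ro 1)⁻¹ ∈ K
        rw [r0, r1, one_mul, mul_inv_cancel]; exact K.one_mem
      · show ro 1 * nu * (ro 0)⁻¹ ∈ K
        rw [r0, r1, inv_one, mul_one]; exact c2
      · show ro 2 * nu * (ro 3)⁻¹ ∈ K
        rw [r2, r3, kk, mul_assoc]; exact c6
      · show ro 3 * nu * (ro 2)⁻¹ ∈ K
        rw [r2, r3, mul_assoc]; exact c10
    · -- v : 1 → v, u → k, v → 1, k → u
      apply hS nv ![2, 3, 0, 1] ![2, 3, 0, 1] (by decide)
      intro i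
      fin_cases i
      · show ro 0 * nv * (ro 2)⁻¹ ∈ K
        rw [r0, r2, one_mul, mul_inv_cancel]; exact K.one_mem
      · show ro 1 * nv * (ro 3)⁻¹ ∈ K
        rw [r1, r3, kk, mul_assoc]; exact c3
      · show ro 2 * nv * (ro 0)⁻¹ ∈ K
        rw [r0, r2, inv_one, mul_one]; exact c7
      · show ro 3 * nv * (ro 1)⁻¹ ∈ K
        rw [r1, r3, mul_assoc]; exact c11
    · -- t
      apply hS na ![0, 1, 2, 3] ![0, 1, 2, 3] (by decide)
      intro i
      fin_cases i
      · show ro 0 * na * (ro 0)⁻¹ ∈ K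
        rw [r0, one_mul, inv_one, mul_one]; exact c1
      · show ro 1 * na * (ro 1)⁻¹ ∈ K
        rw [r1, mul_assoc]; exact c4
      · show ro 2 * na * (ro 2)⁻¹ ∈ K
        rw [r2, mul_assoc]; exact c8
      · show ro 3 * na * (ro 3)⁻¹ ∈ K
        rw [r3, kk, mul_assoc]; exact c12
    · -- k : 1 → k, u → v, v → u, k → 1
      apply hS nk ![3, 2, 1, 0] ![3, 2, 1, 0] (by decide)
      intro i
      fin_cases i
      · show ro 0 * nk * (ro 3)⁻¹ ∈ K
        rw [r0, r3, one_mul, mul_inv_cancel]; exact K.one_mem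
      · show ro 1 * nk * (ro 2)⁻¹ ∈ K
        rw [r1, r2, mul_assoc]; exact c5
      · show ro 2 * nk * (ro 1)⁻¹ ∈ K
        rw [r1, r2, mul_assoc]; exact c9
      · show ro 3 * nk * (ro 0)⁻¹ ∈ K
        rw [r0, r3, inv_one, mul_one, relN.r3]; exact K.one_mem
  have := (hS' w 1 ⟨0, by rw [r0, mul_inv_cancel]; exact K.one_mem⟩).1
  rwa [one_mul] at this

/-- the elements of `K0` -/
theorem K0_ph (hf : IsT f) {g : SL2 O1} {i : Fin 24} {w : N2A kp1} (h : f g (0, 1) = (i, w))
    {M : SL2 Z1} (hM : Th1 w = pj Z1 M) : TP ((rr i)⁻¹ * g) M ∨ TP ((rr i)⁻¹ * g) (-M) := by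
  have h1 := hf.v g
  rw [h] at h1
  unfold V at h1
  rw [hM, mp_pj, ← map_mul] at h1
  have h2 : pj L (ph ((rr i)⁻¹ * g)) = pj L (SLm il M) := by
    rw [map_mul, map_mul, h1, map_inv, map_inv, map_mul, inv_mul_cancel_left]
  rcases pj_eq h2 with h3 | h3
  · left; exact (TP_iff _ _).2 h3
  · right
    rw [← SLm_neg] at h3
    exact (TP_iff _ _).2 h3

theorem c1_inj : Function.Injective (c1 ℤ) := by
  intro x y h
  exact congrArg (fun z : Z1 => z.a.a) h

/-- an element of `K0` with matrix `M` has type `(0, 0)` -/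
theorem TP_T00 {Y : SL2 O1} {M : SL2 Z1} (h : TP Y M) : (M.val 0 0).b = 0 ∧
    (M.val 0 1).a.a = 0 ∧ (M.val 0 1).b = 0 := by
  refine ⟨?_, ?_, ?_⟩
  · rw [h.a]; rfl
  · rw [h.b, ff_c1]; rfl
  · rw [h.b, ff_c1]; rfl

/-- `Th1` is injective -/
theorem Th_inj (w : N2A kp1) (hw : Th1 w = 1) : w = 1 := by
  obtain ⟨f, hf⟩ := exT
  obtain ⟨i, h⟩ := K0_four hf w
  -- an element in the class of the `i`-th representative
  have key2 : ∀ x : N2A kp1, ∀ M : SL2 Z1, Th1 x = pj Z1 M → w * x⁻¹ ∈ K0 hf →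
      ∃ g : SL2 O1, f g (0, 1) = (0, w * x⁻¹) ∧ (TP g M⁻¹ ∨ TP g (-M⁻¹)) := by
    intro x M hM hx
    obtain ⟨g, hg⟩ := (K0_mem hf _).1 hx
    refine ⟨g, hg, ?_⟩
    have h1 : Th1 (w * x⁻¹) = pj Z1 M⁻¹ := by rw [map_mul, hw, one_mul, map_inv, hM, map_inv]
    have h2 := K0_ph hf hg h1
    have h3 : (rr 0)⁻¹ * g = g := by
      rw [rr_zero, inv_one, one_mul]
    rwa [h3] at h2
  have hi : i = 0 ∨ i = 1 ∨ i = 2 ∨ i = 3 := by
    fin_cases i
    · left; rfl
    · right; left; rfl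
    · right; right; left; rfl
    · right; right; right; rfl
  rcases hi with rfl | rfl | rfl | rfl
  · obtain ⟨g, hg, h2⟩ := key2 1 1 (by rw [map_one, map_one]) h
    rw [inv_one, mul_one] at hg
    rw [inv_one] at h2
    have h4 : g = 1 ∨ g = -1 := by
      rcases h2 with h2 | h2
      · left
        apply SL_ext
        · apply c1_inj; rw [← h2.a, one00, one00, map_one]
        · have := h2.b
          rw [one01, ff_c1] at this
          rw [one01]
          have h5 := congrArg (fun z : Z1 => z.a.b) this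
          exact h5.symm
        · apply c1_inj; rw [← h2.c, one10, one10, map_zero, mul_zero]
        · apply c1_inj; rw [← h2.d, one11, one11, map_one]
      · right
        apply SL_ext
        · apply c1_inj; rw [← h2.a, SL_neg, SL_neg, one00, one00, map_neg, map_one]
        · have := h2.b
          rw [SL_neg, one01, neg_zero, ff_c1] at this
          rw [SL_neg, one01, neg_zero]
          have h5 := congrArg (fun z : Z1 => z.a.b) this
          exact h5.symm
        · apply c1_inj; rw [← h2.c, SL_neg, SL_neg, one10, one10, neg_zero, neg_zero, map_zero,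
            mul_zero]
        · apply c1_inj; rw [← h2.d, SL_neg, SL_neg, one11, one11, map_neg, map_one]
    have h5 : f g = 1 := by
      rcases h4 with h4 | h4
      · rw [h4, map_one]
      · rw [h4, ← BB, map_mul, hf.fB, (table relN).c2]
    rw [h5] at hg
    exact (congrArg Prod.snd hg).symm
  · exfalso
    obtain ⟨g, hg, h2⟩ := key2 nu Mu Th_nu h
    have e : Mu⁻¹ = mx (zz 0 0 0 0 0 0 1 0) (zz 0 0 0 0 0 1 0 0) (zz 0 0 0 0 0 (-1) 0 0)
        (zz 0 0 0 0 0 0 0 (-1)) (by decide +kernel) := by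
      unfold Mu; rw [mx_inv]; apply mx_congr <;> decide +kernel
    rw [e] at h2
    rcases h2 with h2 | h2
    · have := (TP_T00 h2).1
      rw [mx_00] at this
      revert this
      decide +kernel
    · have := (TP_T00 h2).1
      rw [SL_neg, mx_00] at this
      revert this
      decide +kernel
  · exfalso
    obtain ⟨g, hg, h2⟩ := key2 nv Mv Th_nv h
    have e : Mv⁻¹ = mx (zz 0 0 0 0 (-1) 0 0 0) (zz 0 0 0 0 0 0 0 (-1)) (zz 0 0 0 0 0 0 0 1)
        (zz 0 0 0 0 (-1) 0 0 0) (by decide +kernel) := by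
      unfold Mv; rw [mx_inv]; apply mx_congr <;> decide +kernel
    rw [e] at h2
    rcases h2 with h2 | h2
    · have := (TP_T00 h2).1
      rw [mx_00] at this
      revert this
      decide +kernel
    · have := (TP_T00 h2).1
      rw [SL_neg, mx_00] at this
      revert this
      decide +kernel
  · exfalso
    obtain ⟨g, hg, h2⟩ := key2 nk Mk Th_nk h
    have e : Mk⁻¹ = mx (zz 0 0 0 0 0 0 0 0) (zz 0 (-1) 0 0 0 0 0 0) (zz 0 (-1) 0 0 0 0 0 0)
        (zz 0 0 0 0 0 0 0 0) (by decide +kernel) := by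
      unfold Mk; rw [mx_inv]; apply mx_congr <;> decide +kernel
    rw [e] at h2
    rcases h2 with h2 | h2
    · have := (TP_T00 h2).2.1
      rw [mx_01] at this
      revert this
      decide +kernel
    · have := (TP_T00 h2).2.1
      rw [SL_neg, mx_01] at this
      revert this
      decide +kernel

theorem Th_injective : Function.Injective Th1 := by
  rw [injective_iff_map_eq_one]
  exact Th_inj

end Pool.Agent.F8.D1.PG
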