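import Pool.Agent.Lib.MP_305fdd_al.F8.D1.G.Word

/-!
# MP_305fdd_al, block G for `d = 1`: the coset table

`PSL₂(O1)` acts on the 24 cosets of the type `(0, 0)` subgroup of the image of `N2A kp1`; the monomial permutations
`pA, pU, pB, pL` over `N2A kp1` satisfy the relations of `PSL₂(O1)`.
-/

set_option autoImplicit false

namespace Pool.Agent.F8.D1.PG

open Pool.Agent.F8 Pool.Agent.F8.D1
open scoped QuadraticAlgebra

/-- the generators of `SL₂(O1)` and inverses -/
inductive Gn
  | A | A' | U | U' | B | L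
  deriving DecidableEq

/-- the permutation of `A` -/
def lA : List (Fin 24) :=
  [2, 4, 0, 8, 1, 10, 11, 9, 3, 7, 5, 6, 20, 19, 16, 17, 14, 15, 22, 13, 12, 23, 18, 21]

/-- the permutation of `U` -/
def lU : List (Fin 24) :=
  [2, 5, 0, 8, 10, 1, 13, 14, 3, 16, 4, 19, 15, 6, 7, 12, 9, 20, 22, 11, 17, 23, 18, 21]

/-- the permutation of `B` -/
def lB : List (Fin 24) :=
  [1, 0, 7, 6, 9, 12, 3, 2, 15, 4, 18, 17, 5, 14, 13, 8, 21, 11, 10, 23, 22, 16, 20, 19]

/-- the permutation of `L` -/
def lL : List (Fin 24) :=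
  [3, 6, 8, 0, 11, 13, 1, 15, 2, 17, 19, 4, 14, 5, 12, 7, 20, 9, 23, 10, 16, 22, 21, 18]

/-- the coefficients of `A` -/
def kA : List (List Lt) :=
  [[], [], [.v', .u, .k, .t'], [.u, .v', .k, .t], [.u, .u, .t], [], [.t', .u', .u'],
   [.t', .u', .u'], [], [.u, .v', .k, .t], [.u, .u, .t], [], [], [.t', .u', .u'],
   [.t', .u', .u'], [.v', .u, .k, .t'], [.u, .v', .k, .t], [.u, .u, .t], [], [],
   [.v, .u', .v, .v, .k], [.v, .u', .v, .u, .t], [.t', .u', .v', .t', .k, .t],
   [.t', .u', .v, .t, .k]]

/-- the coefficients of `U` -/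
def kU : List (List Lt) :=
  [[.t], [], [.v', .u, .k], [.u, .v', .k], [], [.u', .v, .k], [.v, .u', .k], [], [.t'], [],
   [.u', .v, .k], [.v, .u', .k], [.u, .v', .u, .v'], [], [.u, .t, .u'], [.t'],
   [.v', .u, .v', .u, .t], [.u, .v', .k], [.t', .u', .v, .t, .k], [], [.t', .u', .v, .k],
   [.v, .u', .v, .u', .v, .u, .t, .k], [.t', .u', .v', .u, .v'], []]

/-- the coefficients of `B` -/
def kB : List (List Lt) :=
  [[], [], [], [], [], [], [], [], [], [], [], [], [], [.u, .v', .u, .v'], [.v, .u', .v, .u'],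
   [], [], [], [], [], [.v, .u', .v, .v, .k], [], [.u, .v', .t', .k, .t], []]

/-- the coefficients of `L` -/
def kL : List (List Lt) :=
  [[], [], [], [], [], [], [], [], [], [], [], [], [.u, .v', .u, .v'], [], [.v, .u', .v, .u'],
   [], [.v, .u, .t, .k], [], [], [], [.t', .u', .v, .k], [.v, .u', .v, .u, .t],
   [.t', .u', .v', .u, .v'], []]

/-- reading a table -/
def rdT (l : List (Fin 24)) (i : Fin 24) : Fin 24 := l.getD i.val 0
/-- reading a table -/
def rdK (l : List (List Lt)) (i : Fin 24) : List Lt := l.getD i.val []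

/-- the permutations -/
def sg : Gn → Fin 24 → Fin 24
  | .A => rdT lA | .A' => rdT lA | .U => rdT lU | .U' => rdT lU | .B => rdT lB | .L => rdT lL

/-- the coefficients -/
def cg : Gn → Fin 24 → List Lt
  | .A => rdK kA
  | .A' => fun i => winv (rdK kA (rdT lA i))
  | .U => rdK kU
  | .U' => fun i => winv (rdK kU (rdT lU i))
  | .B => rdK kB
  | .L => rdK kL

/-- the action of a word -/
def act : List Gn → Fin 24 → Fin 24 × List Lt
  | [], i => (i, [])
  | x :: w, i => (sg x (act w i).1, cg x (act w i).1 ++ (act w i).2)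

theorem invA : ∀ i, rdT lA (rdT lA i) = i := by decide +kernel
theorem invU : ∀ i, rdT lU (rdT lU i) = i := by decide +kernel
theorem invB : ∀ i, rdT lB (rdT lB i) = i := by decide +kernel
theorem invL : ∀ i, rdT lL (rdT lL i) = i := by decide +kernel

section

variable {G : Type} [Group G] (u v a k : G)

/-- monomial permutations -/
def mkP (s : Fin 24 → Fin 24) (h1 : ∀ i, s (s i) = i) (c : Fin 24 → List Lt) :
    Equiv.Perm (Fin 24 × G) where
  toFun p := (s p.1, Nw u v a k (c p.1) * p.2)
  invFun p := (s p.1, (Nw u v a k (c (s p.1)))⁻¹ * p.2)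
  left_inv p := by
    obtain ⟨i, y⟩ := p
    simp only [h1, inv_mul_cancel_left]
  right_inv p := by
    obtain ⟨i, y⟩ := p
    simp only [h1, mul_inv_cancel_left]

theorem mkP_apply (s : Fin 24 → Fin 24) (h1 : ∀ i, s (s i) = i) (c : Fin 24 → List Lt)
    (i : Fin 24) (y : G) : mkP u v a k s h1 c (i, y) = (s i, Nw u v a k (c i) * y) := rfl

theorem mkP_inv (s : Fin 24 → Fin 24) (h1 : ∀ i, s (s i) = i) (c : Fin 24 → List Lt)
    (i : Fin 24) (y : G) : (mkP u v a k s h1 c)⁻¹ (i, y) =
      (s i, (Nw u v a k (c (s i)))⁻¹ * y) := rfl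

/-- the monomial permutations of the generators -/
def pg : Gn → Equiv.Perm (Fin 24 × G)
  | .A => mkP u v a k (rdT lA) invA (rdK kA)
  | .A' => (mkP u v a k (rdT lA) invA (rdK kA))⁻¹
  | .U => mkP u v a k (rdT lU) invU (rdK kU)
  | .U' => (mkP u v a k (rdT lU) invU (rdK kU))⁻¹
  | .B => mkP u v a k (rdT lB) invB (rdK kB)
  | .L => mkP u v a k (rdT lL) invL (rdK kL)

/-- the permutation of a word -/
def pw : List Gn → Equiv.Perm (Fin 24 × G)
  | [] => 1
  | x :: w => pg u v a k x * pw w

variable {u v a k}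

theorem pg_apply (h : RelN G u v a k) (x : Gn) (i : Fin 24) (y : G) :
    pg u v a k x (i, y) = (sg x i, Nw u v a k (cg x i) * y) := by
  cases x with
  | A => rfl
  | A' =>
    show (mkP u v a k (rdT lA) invA (rdK kA))⁻¹ (i, y) =
      (rdT lA i, Nw u v a k (winv (rdK kA (rdT lA i))) * y)
    rw [mkP_inv, h.Nw_winv]
  | U => rfl
  | U' =>
    show (mkP u v a k (rdT lU) invU (rdK kU))⁻¹ (i, y) =
      (rdT lU i, Nw u v a k (winv (rdK kU (rdT lU i))) * y)
    rw [mkP_inv, h.Nw_winv]
  | B => rfl
  | L => rfl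

theorem pw_apply (h : RelN G u v a k) (w : List Gn) (i : Fin 24) (y : G) :
    pw u v a k w (i, y) = ((act w i).1, Nw u v a k (act w i).2 * y) := by
  induction w with
  | nil => show (i, y) = (i, 1 * y); rw [one_mul]
  | cons x w ih =>
    show pg u v a k x (pw u v a k w (i, y)) =
      (sg x (act w i).1, Nw u v a k (cg x (act w i).1 ++ (act w i).2) * y)
    rw [ih, pg_apply h, Nw_append, mul_assoc]

/-- two words with the same action -/
def same (w w' : List Gn) : Prop :=
  ∀ i, (act w i).1 = (act w' i).1 ∧ nf (act w i).2 = nf (act w' i).2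

instance (w w' : List Gn) : Decidable (same w w') := by unfold same; infer_instance

theorem pw_eq (h : RelN G u v a k) {w w' : List Gn} (hw : same w w') :
    pw u v a k w = pw u v a k w' := by
  apply Equiv.ext
  rintro ⟨i, y⟩
  rw [pw_apply h, pw_apply h, (hw i).1, h.nf_eq (hw i).2]

theorem same1 : same [.A, .U] [.U, .A] := by decide +kernel
theorem same2 : same [.B, .B] [] := by decide +kernel
theorem same3 : same [.L, .L] [] := by decide +kernel
theorem same4 : same [.A, .B, .A, .B, .A, .B] [] := by decide +kernel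
theorem same5 : same [.L, .A, .L] [.A'] := by decide +kernel
theorem same6 : same [.L, .U, .L] [.U'] := by decide +kernel
theorem same7 : same [.B, .L, .B] [.L] := by decide +kernel
theorem same8 : same [.U, .L, .B, .U, .L, .B, .U, .L, .B] [] := by decide +kernel

theorem table (h : RelN G u v a k) : Rel (Equiv.Perm (Fin 24 × G)) (pg u v a k .A)
    (pg u v a k .U) (pg u v a k .B) (pg u v a k .L) where
  c1 := pw_eq h same1
  c2 := pw_eq h same2
  c3 := pw_eq h same3
  c4 := by
    have := pw_eq h same4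
    simp only [pw, mul_one, ← mul_assoc] at this
    exact this
  c5 := by
    have := pw_eq h same5
    simp only [pw, mul_one, ← mul_assoc] at this
    exact this
  c6 := by
    have := pw_eq h same6
    simp only [pw, mul_one, ← mul_assoc] at this
    exact this
  c7 := by
    have := pw_eq h same7
    simp only [pw, mul_one, ← mul_assoc] at this
    exact this
  c8 := by
    have := pw_eq h same8
    simp only [pw, mul_one, ← mul_assoc] at this
    exact this

end

end Pool.Agent.F8.D1.PG
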