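import Pool.Agent.Lib.MP_305fdd_al.F8.D1.G.Pres

/-!
# MP_305fdd_al, block G for `d = 1`: normal forms for the words in the generators of `N2A kp1`

`nf` computes the normal form `w t^n k^e` (`w` a reduced word in `u, v`) of a word in `u, v, t, k`.
-/

set_option autoImplicit false

namespace Pool.Agent.F8.D1.PG

/-- the letters `u, v, t, k` and the inverses -/
inductive Lt
  | u | u' | v | v' | t | t' | k
  deriving DecidableEq

/-- the letters `u, v` and the inverses -/
inductive Fl
  | u | u' | v | v'
  deriving DecidableEq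

/-- the inverse letter -/
def Fl.inv : Fl → Fl
  | .u => .u' | .u' => .u | .v => .v' | .v' => .v

/-- the inverse letter -/
def Lt.inv : Lt → Lt
  | .u => .u' | .u' => .u | .v => .v' | .v' => .v | .t => .t' | .t' => .t | .k => .k

/-- the inverse word -/
def winv : List Lt → List Lt
  | [] => []
  | x :: l => winv l ++ [x.inv]

/-- reduced multiplication with a letter -/
def push (x : Fl) : List Fl → List Fl
  | [] => [x]
  | y :: l => if y = x.inv then l else x :: y :: l

/-- reduced product -/
def cat : List Fl → List Fl → List Fl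
  | [], m => m
  | x :: l, m => push x (cat l m)

/-- the automorphism on letters -/
def alx : Fl → List Fl
  | .u => [.u, .v', .u, .u, .u, .v', .u, .u, .u]
  | .v => [.u, .v', .u, .u, .u]
  | .u' => [.u', .u', .u', .v, .u', .u', .u', .v, .u']
  | .v' => [.u', .u', .u', .v, .u']

/-- the inverse automorphism on letters -/
def alx' : Fl → List Fl
  | .u => [.v, .u', .v]
  | .v => [.v, .u', .v, .v, .u', .v, .v, .u', .v, .u', .v]
  | .u' => [.v', .u, .v']
  | .v' => [.v', .u, .v', .u, .v', .v', .u, .v', .v', .u, .v']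

/-- the automorphism -/
def alw : List Fl → List Fl
  | [] => []
  | x :: l => cat (alx x) (alw l)

/-- the inverse automorphism -/
def alw' : List Fl → List Fl
  | [] => []
  | x :: l => cat (alx' x) (alw' l)

/-- the involution -/
def iow : List Fl → List Fl
  | [] => []
  | x :: l => x.inv :: iow l

/-- `k t^n = (cp n) t^n k` -/
def cp : ℕ → List Fl
  | 0 => []
  | n + 1 => push .u (push .u (alw (cp n)))

/-- `k t^(-n) = (cm n) t^(-n) k` -/
def cm : ℕ → List Fl
  | 0 => []
  | n + 1 => cat (alw' [.u', .u']) (alw' (cm n))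

/-- `k t^n = (cz n) t^n k` -/
def cz : ℤ → List Fl
  | .ofNat n => cp n
  | .negSucc n => cm (n + 1)

/-- the normal form -/
def nf : List Lt → List Fl × ℤ × Bool
  | [] => ([], 0, false)
  | .u :: l => (push .u (nf l).1, (nf l).2)
  | .u' :: l => (push .u' (nf l).1, (nf l).2)
  | .v :: l => (push .v (nf l).1, (nf l).2)
  | .v' :: l => (push .v' (nf l).1, (nf l).2)
  | .t :: l => (alw (nf l).1, (nf l).2.1 + 1, (nf l).2.2)
  | .t' :: l => (alw' (nf l).1, (nf l).2.1 - 1, (nf l).2.2)
  | .k :: l => (cat (iow (nf l).1) (cz (nf l).2.1), (nf l).2.1, !(nf l).2.2)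

/-- the relations of `N2A kp1` (`a = t`) -/
structure RelN (G : Type) [Group G] (u v a k : G) : Prop where
  r1 : a * u = u * (v⁻¹ * (u * (u * (u * (v⁻¹ * (u * (u * (u * a))))))))
  r2 : a * v = u * (v⁻¹ * (u * (u * (u * a))))
  r3 : k * k = 1
  r4 : k * u = u⁻¹ * k
  r5 : k * v = v⁻¹ * k
  r6 : k * a = u * (u * (a * k))

section

variable {G : Type} [Group G] (u v a k : G)

/-- the value of a letter -/
def fval : Fl → G
  | .u => u | .u' => u⁻¹ | .v => v | .v' => v⁻¹

/-- the value of a word in `u, v` -/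
def fw : List Fl → G
  | [] => 1
  | x :: l => fval u v x * fw l

/-- the value of a letter -/
def lval : Lt → G
  | .u => u | .u' => u⁻¹ | .v => v | .v' => v⁻¹ | .t => a | .t' => a⁻¹ | .k => k

/-- the value of a word in `u, v, t, k` -/
def Nw : List Lt → G
  | [] => 1
  | x :: l => lval u v a k x * Nw l

variable {u v a k}

theorem fval_inv (x : Fl) : fval u v x.inv = (fval u v x)⁻¹ := by
  cases x <;> simp [fval, Fl.inv]

theorem fw_push (x : Fl) (l : List Fl) : fw u v (push x l) = fval u v x * fw u v l := by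
  cases l with
  | nil => rfl
  | cons y l =>
    show fw u v (if y = x.inv then l else x :: y :: l) = _
    by_cases h : y = x.inv
    · rw [if_pos h, h]
      show _ = fval u v x * (fval u v x.inv * fw u v l)
      rw [fval_inv, mul_inv_cancel_left]
    · rw [if_neg h]; rfl

theorem fw_cat (l m : List Fl) : fw u v (cat l m) = fw u v l * fw u v m := by
  induction l with
  | nil => show fw u v m = 1 * _; rw [one_mul]
  | cons x l ih =>
    show fw u v (push x (cat l m)) = fval u v x * fw u v l * _
    rw [fw_push, ih, mul_assoc]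

theorem Nw_append (l m : List Lt) : Nw u v a k (l ++ m) = Nw u v a k l * Nw u v a k m := by
  induction l with
  | nil => show Nw u v a k m = 1 * _; rw [one_mul]
  | cons x l ih =>
    show lval u v a k x * Nw u v a k (l ++ m) = lval u v a k x * Nw u v a k l * _
    rw [ih, mul_assoc]

namespace RelN

variable (h : RelN G u v a k)
include h

theorem k_inv : k⁻¹ = k := inv_eq_of_mul_eq_one_left h.r3

theorem lval_inv (x : Lt) : lval u v a k x.inv = (lval u v a k x)⁻¹ := by
  cases x <;> simp [lval, Lt.inv, h.k_inv]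

theorem Nw_winv (l : List Lt) : Nw u v a k (winv l) = (Nw u v a k l)⁻¹ := by
  induction l with
  | nil => show (1 : G) = 1⁻¹; rw [inv_one]
  | cons x l ih =>
    show Nw u v a k (winv l ++ [x.inv]) = (lval u v a k x * Nw u v a k l)⁻¹
    rw [Nw_append, ih, mul_inv_rev]
    show _ * (lval u v a k x.inv * 1) = _
    rw [mul_one, h.lval_inv]

omit h in
theorem a_inv {x y : G} (hxy : a * x = y * a) : a * x⁻¹ = y⁻¹ * a := by
  rw [eq_inv_mul_iff_mul_eq, ← mul_assoc, ← hxy, mul_inv_cancel_right]

theorem a_fl (x : Fl) : a * fval u v x = fw u v (alx x) * a := by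
  have h1 : a * u = fw u v (alx .u) * a := by
    rw [h.r1]; simp only [alx, fw, fval, mul_assoc, one_mul]
  have h2 : a * v = fw u v (alx .v) * a := by
    rw [h.r2]; simp only [alx, fw, fval, mul_assoc, one_mul]
  cases x with
  | u => exact h1
  | v => exact h2
  | u' =>
    show a * u⁻¹ = _
    rw [RelN.a_inv h1]
    simp only [alx, fw, fval, mul_assoc, mul_one, mul_inv_rev, inv_inv]
  | v' =>
    show a * v⁻¹ = _
    rw [RelN.a_inv h2]
    simp only [alx, fw, fval, mul_assoc, mul_one, mul_inv_rev, inv_inv]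

theorem a_fw (l : List Fl) : a * fw u v l = fw u v (alw l) * a := by
  induction l with
  | nil => show a * 1 = 1 * a; rw [mul_one, one_mul]
  | cons x l ih =>
    show a * (fval u v x * fw u v l) = fw u v (cat (alx x) (alw l)) * a
    rw [fw_cat, ← mul_assoc, h.a_fl, mul_assoc, ih, mul_assoc]

theorem a'_fl (x : Fl) : a⁻¹ * fval u v x = fw u v (alx' x) * a⁻¹ := by
  rw [inv_mul_eq_iff_eq_mul, ← mul_assoc, h.a_fw, mul_inv_cancel_right]
  have : alw (alx' x) = [x] := by cases x <;> decide
  rw [this]
  show _ = fval u v x * 1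
  rw [mul_one]

theorem a'_fw (l : List Fl) : a⁻¹ * fw u v l = fw u v (alw' l) * a⁻¹ := by
  induction l with
  | nil => show a⁻¹ * 1 = 1 * a⁻¹; rw [mul_one, one_mul]
  | cons x l ih =>
    show a⁻¹ * (fval u v x * fw u v l) = fw u v (cat (alx' x) (alw' l)) * a⁻¹
    rw [fw_cat, ← mul_assoc, h.a'_fl, mul_assoc, ih, mul_assoc]

theorem k_fl (x : Fl) : k * fval u v x = fval u v x.inv * k := by
  have hk : ∀ y : G, k * y = y⁻¹ * k → k * y⁻¹ = y * k := by
    intro y hy
    have h1 := h.r3
    calc k * y⁻¹ = k * (y⁻¹ * k) * k⁻¹ := by group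
      _ = k * (k * y) * k⁻¹ := by rw [hy]
      _ = (k * k) * y * k := by rw [h.k_inv]; group
      _ = _ := by rw [h1, one_mul]
  cases x with
  | u => exact h.r4
  | v => exact h.r5
  | u' => exact hk _ h.r4
  | v' => exact hk _ h.r5

theorem k_fw (l : List Fl) : k * fw u v l = fw u v (iow l) * k := by
  induction l with
  | nil => show k * 1 = 1 * k; rw [mul_one, one_mul]
  | cons x l ih =>
    show k * (fval u v x * fw u v l) = fval u v x.inv * fw u v (iow l) * k
    rw [← mul_assoc, h.k_fl, mul_assoc, ih, mul_assoc]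

theorem k_cp (n : ℕ) : k * a ^ n = fw u v (cp n) * a ^ n * k := by
  induction n with
  | zero => show k * a ^ 0 = 1 * a ^ 0 * k; rw [pow_zero, mul_one, one_mul, one_mul]
  | succ n ih =>
    have e : fw u v (cp (n + 1)) = u * (u * fw u v (alw (cp n))) := by
      show fw u v (push .u (push .u (alw (cp n)))) = _
      rw [fw_push, fw_push]; rfl
    rw [e, pow_succ', ← mul_assoc, h.r6]
    calc u * (u * (a * k)) * a ^ n = u * (u * (a * (k * a ^ n))) := by group
      _ = u * (u * ((a * fw u v (cp n)) * a ^ n * k)) := by rw [ih]; group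
      _ = _ := by rw [h.a_fw]; group

theorem k_cm (n : ℕ) : k * a⁻¹ ^ n = fw u v (cm n) * a⁻¹ ^ n * k := by
  induction n with
  | zero => show k * a⁻¹ ^ 0 = 1 * a⁻¹ ^ 0 * k; rw [pow_zero, mul_one, one_mul, one_mul]
  | succ n ih =>
    have e1 : k * a⁻¹ = fw u v (alw' [.u', .u']) * a⁻¹ * k := by
      rw [← h.a'_fw]
      have h1 := h.r3
      have h6 := h.r6
      have e2 : k * a * k = u * (u * a) := by
        calc k * a * k = u * (u * (a * k)) * k := by rw [h6]
          _ = u * (u * (a * (k * k))) := by group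
          _ = _ := by rw [h1, mul_one]
      have e3 : k * a⁻¹ * k = (u * (u * a))⁻¹ := by
        rw [← e2, mul_inv_rev, mul_inv_rev, h.k_inv, mul_assoc]
      calc k * a⁻¹ = k * a⁻¹ * k * k⁻¹ := by group
        _ = _ := by
          rw [e3, h.k_inv]
          simp only [fw, fval, mul_assoc, mul_one, mul_inv_rev]
    have e : fw u v (cm (n + 1)) = fw u v (alw' [.u', .u']) * fw u v (alw' (cm n)) := by
      show fw u v (cat (alw' [.u', .u']) (alw' (cm n))) = _
      rw [fw_cat]
    rw [e, pow_succ', ← mul_assoc, e1]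
    calc fw u v (alw' [.u', .u']) * a⁻¹ * k * a⁻¹ ^ n =
        fw u v (alw' [.u', .u']) * a⁻¹ * (k * a⁻¹ ^ n) := by rw [mul_assoc _ k]
      _ = fw u v (alw' [.u', .u']) * ((a⁻¹ * fw u v (cm n)) * a⁻¹ ^ n * k) := by
        rw [ih]; simp only [mul_assoc]
      _ = _ := by rw [h.a'_fw]; simp only [mul_assoc]

theorem k_cz (n : ℤ) : k * a ^ n = fw u v (cz n) * a ^ n * k := by
  cases n with
  | ofNat n =>
    have := h.k_cp n
    show k * a ^ ((n : ℤ)) = fw u v (cp n) * a ^ ((n : ℤ)) * k
    rw [zpow_natCast]; exact this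
  | negSucc n =>
    have := h.k_cm (n + 1)
    show k * a ^ (Int.negSucc n) = fw u v (cm (n + 1)) * a ^ (Int.negSucc n) * k
    rw [zpow_negSucc, ← inv_pow]; exact this

/-- the soundness of the normal form -/
theorem nf_val (l : List Lt) : Nw u v a k l =
    fw u v (nf l).1 * a ^ (nf l).2.1 * (if (nf l).2.2 then k else 1) := by
  induction l with
  | nil => show (1 : G) = 1 * a ^ (0 : ℤ) * 1; rw [zpow_zero, mul_one, mul_one]
  | cons x l ih =>
    cases x with
    | u =>
      show u * Nw u v a k l = fw u v (push .u (nf l).1) * _ * _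
      rw [fw_push, ih]; simp only [fval, mul_assoc]; rfl
    | u' =>
      show u⁻¹ * Nw u v a k l = fw u v (push .u' (nf l).1) * _ * _
      rw [fw_push, ih]; simp only [fval, mul_assoc]; rfl
    | v =>
      show v * Nw u v a k l = fw u v (push .v (nf l).1) * _ * _
      rw [fw_push, ih]; simp only [fval, mul_assoc]; rfl
    | v' =>
      show v⁻¹ * Nw u v a k l = fw u v (push .v' (nf l).1) * _ * _
      rw [fw_push, ih]; simp only [fval, mul_assoc]; rfl
    | t =>
      show a * Nw u v a k l = fw u v (alw (nf l).1) * a ^ ((nf l).2.1 + 1) *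
        (if (nf l).2.2 then k else 1)
      rw [ih, ← mul_assoc, ← mul_assoc, h.a_fw, add_comm, zpow_one_add]
      simp only [mul_assoc]
    | t' =>
      show a⁻¹ * Nw u v a k l = fw u v (alw' (nf l).1) * a ^ ((nf l).2.1 - 1) *
        (if (nf l).2.2 then k else 1)
      have e : a ^ ((nf l).2.1 - 1) = a⁻¹ * a ^ (nf l).2.1 := by
        rw [sub_eq_neg_add, zpow_add, zpow_neg_one]
      rw [ih, ← mul_assoc, ← mul_assoc, h.a'_fw, e]
      simp only [mul_assoc]
    | k =>
      show k * Nw u v a k l = fw u v (cat (iow (nf l).1) (cz (nf l).2.1)) * a ^ (nf l).2.1 *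
        (if (!(nf l).2.2) then k else 1)
      have e : k * (if (nf l).2.2 then k else 1) = (if (!(nf l).2.2) then k else 1) := by
        cases (nf l).2.2
        · simp
        · simp [h.r3]
      rw [fw_cat, ← e, ih]
      calc k * (fw u v (nf l).1 * a ^ (nf l).2.1 * (if (nf l).2.2 then k else 1))
          = (k * fw u v (nf l).1) * a ^ (nf l).2.1 * (if (nf l).2.2 then k else 1) := by
            simp only [mul_assoc]
        _ = fw u v (iow (nf l).1) * (k * a ^ (nf l).2.1) * (if (nf l).2.2 then k else 1) := by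
            rw [h.k_fw]; simp only [mul_assoc]
        _ = _ := by rw [h.k_cz]; simp only [mul_assoc]

theorem nf_eq {l m : List Lt} (hlm : nf l = nf m) : Nw u v a k l = Nw u v a k m := by
  rw [h.nf_val, h.nf_val, hlm]

end RelN

end

end Pool.Agent.F8.D1.PG
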